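import Pool.Agent.Lib.MP_19d7db_an_S.Force

/-!
# Simple polygons with large radii satisfy the quantitative hypotheses
-/

open Complex Set Filter Topology MeasureTheory

namespace Pool.Agent.Lib.MP_19d7db_an

variable {n : ℕ}

lemma isCompact_seg (a b : ℂ) : IsCompact (segment ℝ a b) := by
  rw [segment_eq_image']
  exact isCompact_Icc.image (by fun_prop)

/-- Two adjacent sides of a simple polygon do not overlap. -/
lemma PolyDom.adj (hn : 3 ≤ n) {p : ZMod n → ℂ} {Ω : Set ℂ} (hdom : PolyDom p Ω) (i : ZMod n)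
    (h0 : cr (p (i + 1) - p i) (p (i + 1 + 1) - p (i + 1)) = 0) :
    0 < dt (p (i + 1) - p i) (p (i + 1 + 1) - p (i + 1)) := by
  set e := p (i + 1) - p i with he
  set e' := p (i + 1 + 1) - p (i + 1) with he'
  have he0 : e ≠ 0 := sub_ne_zero.2 (hdom.ne i).symm
  have he0' : e' ≠ 0 := sub_ne_zero.2 (hdom.ne (i + 1)).symm
  have hN := norm_pos_iff.2 he0
  have hN' := norm_pos_iff.2 he0'
  have hne : dt e e' ≠ 0 := by
    intro h
    have h1 := cr_sq_add_dt_sq e e'
    rw [h0, h] at h1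
    have : 0 < ‖e‖ ^ 2 * ‖e'‖ ^ 2 := by positivity
    linarith
  by_contra hcon
  have hneg : dt e e' < 0 := lt_of_le_of_ne (not_lt.1 hcon) hne
  -- `e' = - t e`
  set t := -dt e e' / ‖e‖ ^ 2 with ht
  have ht0 : 0 < t := div_pos (by linarith) (by positivity)
  have hee : e' = -(t : ℂ) * e := by
    have h1 : e.re * e.re + e.im * e.im = ‖e‖ ^ 2 := by rw [← dt_self]; rfl
    have hc : e.re * e'.im - e.im * e'.re = 0 := h0
    have hd : dt e e' = e.re * e'.re + e.im * e'.im := rfl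
    have ht' : t * ‖e‖ ^ 2 = -dt e e' := by rw [ht]; field_simp
    have hN2 : (0 : ℝ) < ‖e‖ ^ 2 := by positivity
    have r1 : e'.re = -t * e.re := by
      have : ‖e‖ ^ 2 * (e'.re + t * e.re) = 0 := by
        rw [← h1] at ht' ⊢
        rw [hd] at ht'
        linear_combination e.re * ht' - e.im * hc
      have := (mul_eq_zero.1 this).resolve_left hN2.ne'
      linarith
    have r2 : e'.im = -t * e.im := by
      have : ‖e‖ ^ 2 * (e'.im + t * e.im) = 0 := by
        rw [← h1] at ht' ⊢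
        rw [hd] at ht'
        linear_combination e.im * ht' + e.re * hc
      have := (mul_eq_zero.1 this).resolve_left hN2.ne'
      linarith
    apply Complex.ext
    · rw [r1]; simp
    · rw [r2]; simp
  -- a common point
  set s := min 1 t / 2 with hs
  have hs0 : 0 < s := by have := lt_min one_pos ht0; rw [hs]; linarith
  have hs1 : s ≤ 1 / 2 := by have := min_le_left 1 t; rw [hs]; linarith
  have hst : s ≤ t := by have := min_le_right 1 t; rw [hs]; linarith
  have hx1 : p (i + 1) - (s : ℂ) * e ∈ segment ℝ (p i) (p (i + 1)) := by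
    rw [segment_eq_image']
    refine ⟨1 - s, ⟨by linarith, by linarith⟩, ?_⟩
    simp only [Complex.real_smul]
    rw [← he]
    have : p (i + 1) = p i + e := by rw [he]; ring
    rw [this]
    push_cast
    ring
  have hx2 : p (i + 1) - (s : ℂ) * e ∈ segment ℝ (p (i + 1)) (p (i + 1 + 1)) := by
    rw [segment_eq_image']
    refine ⟨s / t, ⟨by positivity, (div_le_one ht0).2 hst⟩, ?_⟩
    simp only [Complex.real_smul]
    rw [← he', hee]
    have ht0' : (t : ℂ) ≠ 0 := by exact_mod_cast ht0.ne'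
    push_cast
    field_simp
    ring
  have hij : i ≠ i + 1 := fun h => succ_ne hn i h.symm
  rcases hdom.simple i (i + 1) hij _ hx1 hx2 with ⟨-, h⟩ | ⟨h, -⟩
  · have h1 : (s : ℂ) * e = 0 := by
      have : p (i + 1) - (s : ℂ) * e - p (i + 1) = 0 := by rw [h]; ring
      linear_combination -this
    rcases mul_eq_zero.1 h1 with h2 | h2
    · exact hs0.ne' (by exact_mod_cast h2)
    · exact he0 h2
  · exact succ_succ_ne hn i h.symm

/-- Simple polygons with large radii satisfy the quantitative hypotheses. -/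
theorem exists_sg (hn : 3 ≤ n) (p : ZMod n → ℂ) (Ω : Set ℂ) (hdom : PolyDom p Ω)
    (D : Set (ZMod n)) : ∃ R : ℝ, ∀ ρ : ZMod n → ℝ, (∀ k ∈ D, R ≤ ρ k) →
      ∃ C η, SG (Dom.mk (Table.mk p D ρ) Ω) C η := by
  have : NeZero n := ⟨by omega⟩
  -- adjacent sides
  have hδ : ∃ δ, 0 < δ ∧ ∀ i, δ ≤ |cr (p (i + 1) - p i) (p (i + 1 + 1) - p (i + 1))| ∨
      (cr (p (i + 1) - p i) (p (i + 1 + 1) - p (i + 1)) = 0 ∧
        0 < dt (p (i + 1) - p i) (p (i + 1 + 1) - p (i + 1))) := by
    have key : ∀ i, ∃ δ, 0 < δ ∧ (δ ≤ |cr (p (i + 1) - p i) (p (i + 1 + 1) - p (i + 1))| ∨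
      (cr (p (i + 1) - p i) (p (i + 1 + 1) - p (i + 1)) = 0 ∧
        0 < dt (p (i + 1) - p i) (p (i + 1 + 1) - p (i + 1)))) := by
      intro i
      by_cases h : cr (p (i + 1) - p i) (p (i + 1 + 1) - p (i + 1)) = 0
      · exact ⟨1, one_pos, Or.inr ⟨h, hdom.adj hn i h⟩⟩
      · exact ⟨_, abs_pos.2 h, Or.inl le_rfl⟩
    choose δ hδ0 hδ using key
    refine ⟨Finset.univ.inf' Finset.univ_nonempty δ, ?_, ?_⟩
    · rw [Finset.lt_inf'_iff]; exact fun k _ => hδ0 k
    · intro i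
      rcases hδ i with h | h
      · exact Or.inl ((Finset.inf'_le δ (Finset.mem_univ i)).trans h)
      · exact Or.inr h
  obtain ⟨δ, hδ0, hδ⟩ := hδ
  -- distance of the sides
  have hm : ∃ m, 0 < m ∧ ∀ i j, i ≠ j → j ≠ i + 1 → i ≠ j + 1 →
      ∀ x ∈ segment ℝ (p i) (p (i + 1)), ∀ y ∈ segment ℝ (p j) (p (j + 1)), m < ‖x - y‖ := by
    have key : ∀ z : ZMod n × ZMod n, ∃ m, 0 < m ∧ (z.1 ≠ z.2 → z.2 ≠ z.1 + 1 → z.1 ≠ z.2 + 1 →
        ∀ x ∈ segment ℝ (p z.1) (p (z.1 + 1)), ∀ y ∈ segment ℝ (p z.2) (p (z.2 + 1)),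
          m < ‖x - y‖) := by
      rintro ⟨i, j⟩
      simp only
      by_cases h : i ≠ j ∧ j ≠ i + 1 ∧ i ≠ j + 1
      · have hdisj : Disjoint (segment ℝ (p i) (p (i + 1))) (segment ℝ (p j) (p (j + 1))) := by
          rw [Set.disjoint_left]
          intro x hx hx'
          rcases hdom.simple i j h.1 x hx hx' with h1 | h1
          · exact h.2.1 h1.1
          · exact h.2.2 h1.1
        obtain ⟨r, hr0, hr⟩ := Metric.exists_pos_forall_lt_edist (isCompact_seg _ _)
          (isCompact_seg _ _).isClosed hdisj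
        refine ⟨r, by exact_mod_cast hr0, fun _ _ _ x hx y hy => ?_⟩
        have h1 := hr x hx y hy
        rw [edist_nndist, ENNReal.coe_lt_coe, ← NNReal.coe_lt_coe, coe_nndist, dist_eq_norm] at h1
        exact h1
      · exact ⟨1, one_pos, fun h1 h2 h3 => absurd ⟨h1, h2, h3⟩ h⟩
    choose m hm0 hm using key
    refine ⟨Finset.univ.inf' Finset.univ_nonempty m, ?_, ?_⟩
    · rw [Finset.lt_inf'_iff]; exact fun k _ => hm0 k
    · intro i j h1 h2 h3 x hx y hy
      exact (Finset.inf'_le m (Finset.mem_univ (i, j))).trans_lt (hm (i, j) h1 h2 h3 x hx y hy)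
  obtain ⟨m, hm0, hm⟩ := hm
  -- upper bound for the lengths
  have hL : ∃ L, 0 < L ∧ ∀ i, ‖p (i + 1) - p i‖ ≤ L := by
    refine ⟨∑ i, ‖p (i + 1) - p i‖ + 1, ?_, ?_⟩
    · have : 0 ≤ ∑ i, ‖p (i + 1) - p i‖ := Finset.sum_nonneg fun _ _ => norm_nonneg _
      linarith
    · intro i
      have := Finset.single_le_sum (f := fun i => ‖p (i + 1) - p i‖)
        (fun i _ => norm_nonneg _) (Finset.mem_univ i)
      linarith
  obtain ⟨L, hL0, hL⟩ := hL
  set C := L ^ 2 with hC
  have hC0 : 0 < C := by positivity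
  set η := min (1 / 2) (min (δ / (8 * C)) (m / (2 * L))) with hη
  have hη0 : 0 < η := lt_min (by norm_num) (lt_min (by positivity) (by positivity))
  have hη1 : η ≤ 1 / 2 := min_le_left _ _
  have hη2 : η ≤ δ / (8 * C) := (min_le_right _ _).trans (min_le_left _ _)
  have hη3 : η ≤ m / (2 * L) := (min_le_right _ _).trans (min_le_right _ _)
  refine ⟨L / (2 * η) + L, fun ρ hρ => ⟨C, η, ?_⟩⟩
  have hR : ∀ k ∈ D, L / (2 * η) + L ≤ ρ k := hρ
  have hq : 0 < L / (2 * η) := by positivity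
  refine ⟨hn, hdom, ?_, hη0, hη1, ?_, ?_, ?_, ?_⟩
  · intro i j
    change ‖p (i + 1) - p i‖ * ‖p (j + 1) - p j‖ ≤ C
    have h1 := hL i
    have h2 := hL j
    rw [hC, pow_two]
    exact mul_le_mul h1 h2 (norm_nonneg _) hL0.le
  · intro k hk
    change ‖p (k + 1) - p k‖ < 2 * ρ k
    have h1 := hL k
    have h2 := hR k hk
    linarith
  · intro k hk
    change ‖p (k + 1) - p k‖ ≤ 2 * η * √(ρ k ^ 2 - (‖p (k + 1) - p k‖ / 2) ^ 2)
    have h1 := hL k
    have h2 := hR k hk
    have h3 := norm_nonneg (p (k + 1) - p k)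
    set l := ‖p (k + 1) - p k‖
    have h4 : L / (2 * η) ≤ √(ρ k ^ 2 - (l / 2) ^ 2) := by
      apply Real.le_sqrt_of_sq_le
      have h5 : (L / (2 * η) + L) ^ 2 ≤ ρ k ^ 2 := pow_le_pow_left₀ (by positivity) h2 2
      nlinarith [mul_pos hq hL0]
    have h5 : 2 * η * (L / (2 * η)) = L := by field_simp
    calc l ≤ L := h1
      _ = 2 * η * (L / (2 * η)) := h5.symm
      _ ≤ _ := mul_le_mul_of_nonneg_left h4 (by positivity)
  · intro i
    change 4 * C * η < |cr (p (i + 1) - p i) (p (i + 1 + 1) - p (i + 1))| ∨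
      (cr (p (i + 1) - p i) (p (i + 1 + 1) - p (i + 1)) = 0 ∧
        0 < dt (p (i + 1) - p i) (p (i + 1 + 1) - p (i + 1)))
    rcases hδ i with h | h
    · left
      rw [le_div_iff₀ (by positivity)] at hη2
      have : 4 * C * η = η * (8 * C) / 2 := by ring
      linarith
    · exact Or.inr h
  · intro i j x a h b h' h1 h2 h3 hT hT'
    have hη4 : 2 * L * η ≤ m := by
      rw [le_div_iff₀ (by positivity)] at hη3
      linarith
    have s1 : p i + (a : ℂ) * (p (i + 1) - p i) ∈ segment ℝ (p i) (p (i + 1)) := by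
      rw [segment_eq_image']
      refine ⟨a, ⟨hT.a0, hT.a1⟩, ?_⟩
      simp only [Complex.real_smul]
    have s2 : p j + (b : ℂ) * (p (j + 1) - p j) ∈ segment ℝ (p j) (p (j + 1)) := by
      rw [segment_eq_image']
      refine ⟨b, ⟨hT'.a0, hT'.a1⟩, ?_⟩
      simp only [Complex.real_smul]
    have h4 := hm i j h1 h2 h3 _ s1 _ s2
    have e1 : x = p i + (a + h * I) * (p (i + 1) - p i) := hT.hx
    have e2 : x = p j + (b + h' * I) * (p (j + 1) - p j) := hT'.hx
    have e3 : (p i + (a : ℂ) * (p (i + 1) - p i)) - (p j + (b : ℂ) * (p (j + 1) - p j)) =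
        (h' : ℂ) * I * (p (j + 1) - p j) - (h : ℂ) * I * (p (i + 1) - p i) := by
      have := e1.symm.trans e2
      linear_combination this
    rw [e3] at h4
    have h5 := norm_sub_le ((h' : ℂ) * I * (p (j + 1) - p j)) ((h : ℂ) * I * (p (i + 1) - p i))
    rw [norm_mul, norm_mul, norm_mul, norm_mul, Complex.norm_I, Complex.norm_real,
      Complex.norm_real, Real.norm_eq_abs, Real.norm_eq_abs, abs_of_nonneg hT.h0,
      abs_of_nonneg hT'.h0, mul_one, mul_one] at h5
    have k1 : h ≤ η := hT.ha.trans (by nlinarith [hT.a1])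
    have k2 : h' ≤ η := hT'.ha.trans (by nlinarith [hT'.a1])
    have k3 : h * ‖p (i + 1) - p i‖ ≤ η * L := mul_le_mul k1 (hL i) (norm_nonneg _) hη0.le
    have k4 : h' * ‖p (j + 1) - p j‖ ≤ η * L := mul_le_mul k2 (hL j) (norm_nonneg _) hη0.le
    linarith

end Pool.Agent.Lib.MP_19d7db_an
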