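import Pool.Agent.Lib.MP_19d7db_an_S.Exists

/-!
# The interior of a strictly convex polygon
-/

open Complex Set Filter Topology MeasureTheory

namespace Pool.Agent.Lib.MP_19d7db_an

variable {n : ℕ}

/-- A strictly convex polygon is simple, and its interior is the intersection of the open inner
half planes of its sides. -/
theorem polyDom_convex (hn : 3 ≤ n) (p : ZMod n → ℂ)
    (hconv : ∀ i j, j ≠ i → j ≠ i + 1 → 0 < cr (p (i + 1) - p i) (p j - p i)) :
    PolyDom p {x | ∀ i, 0 < cr (p (i + 1) - p i) (x - p i)} := by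
  have : NeZero n := ⟨by omega⟩
  obtain ⟨R, hR⟩ := exists_good hn p hconv ∅
  obtain ⟨δ, C, η, hg⟩ := hR 0 (fun k hk => absurd hk (Set.notMem_empty k))
  set Y : Table n := Table.mk p ∅ 0 with hY
  set Ω : Set ℂ := {x | ∀ i, 0 < cr (p (i + 1) - p i) (x - p i)} with hΩ
  have hN : ∀ i, i ∉ Y.D := fun i => Set.notMem_empty i
  have hmem : ∀ x, x ∈ Ω ↔ ∀ i, 0 < Y.f i x := fun x => Iff.rfl
  have hcf : ∀ m, Continuous (Y.f m) := fun m => Good.continuous_f m
  have hopen : IsOpen Ω := by
    have : Ω = ⋂ i, {x | 0 < Y.f i x} := by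
      ext x; rw [hmem]; simp only [Set.mem_iInter]; rfl
    rw [this]
    exact isOpen_iInter_of_finite fun i => isOpen_lt continuous_const (hcf i)
  -- points of the sides
  have hseg : ∀ (j : ZMod n) (x : ℂ), x ∈ segment ℝ (p j) (p (j + 1)) →
      ∃ t : ℝ, 0 ≤ t ∧ t ≤ 1 ∧ x = p j + t * (p (j + 1) - p j) ∧
        ∀ m, Y.f m x = (1 - t) * Y.f m (p j) + t * Y.f m (p (j + 1)) := by
    intro j x hx
    rw [segment_eq_image'] at hx
    obtain ⟨t, ⟨ht0, ht1⟩, rfl⟩ := hx
    refine ⟨t, ht0, ht1, by simp only [Complex.real_smul], ?_⟩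
    intro m
    simp only [Table.f, cr, Complex.real_smul, sub_re, sub_im, add_re, add_im, mul_re, mul_im,
      ofReal_re, ofReal_im]
    ring
  have hv : ∀ m j, 0 ≤ Y.f m (p j) := fun m j => hg.f_vertex_nonneg m j
  -- a point of the polygon
  have hx0 : ∃ x₀, x₀ ∈ Ω := by
    have hℓ := hg.len_pos 0
    have hw : (Y.len 0 / 2, Real.pi / 2) ∈ Y.Phase 0 :=
      ⟨⟨by simp only; linarith, by simp only; linarith⟩,
        ⟨by simp only; linarith [Real.pi_pos], by simp only; linarith [Real.pi_pos]⟩⟩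
    obtain ⟨u, hu⟩ := (hg.inside_near hw).exists
    exact ⟨_, hu.1⟩
  obtain ⟨x₀, hx0⟩ := hx0
  have hcl : ∀ x, x ∈ closure Ω ↔ ∀ i, 0 ≤ Y.f i x := by
    intro x
    constructor
    · intro hx i
      have h1 : IsClosed {y : ℂ | 0 ≤ Y.f i y} := isClosed_le continuous_const (hcf i)
      exact closure_minimal (fun y hy => (hy i).le) h1 hx
    · intro hx
      have hc : Continuous fun t : ℝ => x + (t : ℂ) * (x₀ - x) := by fun_prop
      have h0 : Tendsto (fun t : ℝ => x + (t : ℂ) * (x₀ - x)) (𝓝[>] 0) (𝓝 x) := by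
        have := hc.tendsto 0
        simp only [ofReal_zero, zero_mul, add_zero] at this
        exact this.mono_left nhdsWithin_le_nhds
      apply mem_closure_of_tendsto h0
      filter_upwards [Ioo_mem_nhdsGT (zero_lt_one' ℝ)] with t ht
      rw [hmem]
      intro i
      have h1 : Y.f i (x + (t : ℂ) * (x₀ - x)) = (1 - t) * Y.f i x + t * Y.f i x₀ := by
        simp only [Table.f, cr, sub_re, sub_im, add_re, add_im, mul_re, mul_im, ofReal_re,
          ofReal_im]
        ring
      rw [h1]
      have h2 := mul_pos ht.1 (hx0 i)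
      have h2' : 0 < t * Y.f i x₀ := h2
      have h3 := mul_nonneg (by linarith [ht.2] : (0 : ℝ) ≤ 1 - t) (hx i)
      linarith
  have hpos : ∀ (j : ZMod n) (x : ℂ), x ∈ openSegment ℝ (p j) (p (j + 1)) →
      ∃ s ∈ Ioo 0 (Y.len j), x = Y.pos j s := by
    intro j x hx
    rw [openSegment_eq_image'] at hx
    obtain ⟨b, ⟨hb0, hb1⟩, rfl⟩ := hx
    have hℓ := hg.ell_pos j
    refine ⟨b * Y.ℓ j, ⟨by positivity, ?_⟩, ?_⟩
    · rw [Y.len_N (hN j)]; nlinarith
    · rw [Y.pos_N (hN j)]
      have hℓ' : (Y.ℓ j : ℂ) ≠ 0 := by exact_mod_cast hℓ.ne'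
      change p j + b • (p (j + 1) - p j) = p j + _ * ((p (j + 1) - p j) / _)
      rw [Complex.real_smul]
      push_cast
      field_simp
  refine ⟨hopen, ?_, ?_, ?_, ?_, ?_⟩
  · obtain ⟨d, hd0, hd⟩ := hg.exists_diam
    rw [Metric.isBounded_iff]
    refine ⟨d, fun x hx y hy => ?_⟩
    rw [dist_eq_norm]
    exact hd x y (fun m => (hx m).le) (fun m => (hy m).le)
  · ext x
    rw [frontier, hopen.interior_eq, Set.mem_diff, hcl, Set.mem_iUnion]
    constructor
    · rintro ⟨h1, h2⟩
      have h3 : ∃ m, Y.f m x = 0 := by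
        by_contra hcon
        push Not at hcon
        exact h2 fun i => lt_of_le_of_ne (h1 i) (Ne.symm (hcon i))
      rcases hg.classify h1 (fun k hk => absurd hk (hN k)) (Or.inl h3) with
        ⟨j, hj⟩ | ⟨j, s, hs, hx⟩
      · exact ⟨j, by rw [hj]; exact left_mem_segment ℝ _ _⟩
      · refine ⟨j, ?_⟩
        have hℓ := hg.ell_pos j
        rw [Y.len_N (hN j)] at hs
        rw [segment_eq_image']
        refine ⟨s / Y.ℓ j, ⟨(div_pos hs.1 hℓ).le, ((div_lt_one hℓ).2 hs.2).le⟩, ?_⟩
        rw [hx, Y.pos_N (hN j)]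
        simp only [Complex.real_smul]
        change _ = p j + _ * ((p (j + 1) - p j) / _)
        push_cast
        ring
    · rintro ⟨j, hj⟩
      obtain ⟨t, ht0, ht1, -, hf⟩ := hseg j x hj
      refine ⟨fun i => ?_, fun h => ?_⟩
      · rw [hf i]
        have := mul_nonneg (by linarith : (0 : ℝ) ≤ 1 - t) (hv i j)
        have := mul_nonneg ht0 (hv i (j + 1))
        linarith
      · have h1 : 0 < Y.f j x := h j
        have e1 : Y.f j (p j) = 0 := Y.f_vertex j
        have e2 : Y.f j (p (j + 1)) = 0 := Y.f_vertex' j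
        rw [hf j, e1, e2] at h1
        simp at h1
  · intro i x hx
    obtain ⟨s, hs, hxs⟩ := hpos i x hx
    have h1 : ∀ᶠ y in 𝓝 x, ∀ m, m ≠ i → 0 < Y.f m y := by
      rw [eventually_all]
      intro m
      by_cases hm : m = i
      · exact Eventually.of_forall fun y h => absurd hm h
      · have h2 : 0 < Y.f m x := by rw [hxs]; exact hg.f_pos_other hs hm
        filter_upwards [(isOpen_lt continuous_const (hcf m)).mem_nhds h2] with y hy _
        exact hy
    filter_upwards [h1] with y hy
    constructor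
    · intro h
      exact h i
    · intro h m
      by_cases hm : m = i
      · rw [hm]; exact h
      · exact hy m hm
  · intro i h
    have := hg.e_ne i
    apply this
    change p (i + 1) - p i = 0
    rw [h, sub_self]
  · intro i j hij x hx hx'
    obtain ⟨t, ht0, ht1, hxt, hf⟩ := hseg i x hx
    obtain ⟨t', -, -, -, hf'⟩ := hseg j x hx'
    have e1 : Y.f j (p j) = 0 := Y.f_vertex j
    have e2 : Y.f j (p (j + 1)) = 0 := Y.f_vertex' j
    have h0 : (1 - t) * Y.f j (p i) + t * Y.f j (p (i + 1)) = 0 := by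
      rw [← hf j, hf' j, e1, e2]; ring
    have h1 := mul_nonneg (by linarith : (0 : ℝ) ≤ 1 - t) (hv j i)
    have h2 := mul_nonneg ht0 (hv j (i + 1))
    have h3 : (1 - t) * Y.f j (p i) = 0 := by linarith
    have h4 : t * Y.f j (p (i + 1)) = 0 := by linarith
    have far : ∀ k, Y.f j (p k) = 0 → k = j ∨ k = j + 1 := by
      intro k hk
      by_contra hcon
      push Not at hcon
      have h5 := hg.f_far (m := j) (j := k) hcon.1 hcon.2
      have h6 := hg.hδ
      have h7 : Y.f j (Y.p k) = 0 := hk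
      linarith
    rcases mul_eq_zero.1 h3 with h5 | h5
    · -- `t = 1`
      have ht : t = 1 := by linarith
      have h6 : Y.f j (p (i + 1)) = 0 := by
        rcases mul_eq_zero.1 h4 with h6 | h6
        · linarith
        · exact h6
      have hx1 : x = p (i + 1) := by rw [hxt, ht]; push_cast; ring
      rcases far _ h6 with h7 | h7
      · left; exact ⟨h7.symm, by rw [hx1, h7]⟩
      · exact absurd (add_right_cancel h7) hij
    · rcases far _ h5 with h6 | h6
      · exact absurd h6 hij
      · rcases mul_eq_zero.1 h4 with h7 | h7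
        · right
          refine ⟨h6, ?_⟩
          rw [hxt, h7]; push_cast; ring
        · rcases far _ h7 with h8 | h8
          · exfalso
            rw [h6] at h8
            exact succ_succ_ne hn j h8
          · exact absurd (add_right_cancel h8) hij

end Pool.Agent.Lib.MP_19d7db_an
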