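import Pool.Agent.Lib.MP_19d7db_an.Momentum

/-!
# Semi-dispersive simple polygons: definitions

The data `Table` (vertices, dispersive sides, radii), the arcs, the arc length parametrisations
and the phase space are those of `Pool.Agent.Lib.MP_19d7db_an.Defs`.  The interior of a polygon
which is not convex is given as an open set `Ω`.
-/

open Complex Set Filter Topology MeasureTheory

namespace Pool.Agent.Lib.MP_19d7db_an

/-- `Ω` is the interior of the simple closed polygon with the vertices `p i` in counterclockwise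
order: `Ω` is a bounded open set, its frontier is the union of the sides, it lies locally on the
left of each side, and two different sides have no common point apart from the common vertex of
two adjacent sides. -/
structure PolyDom {n : ℕ} (p : ZMod n → ℂ) (Ω : Set ℂ) : Prop where
  isOpen : IsOpen Ω
  isBounded : Bornology.IsBounded Ω
  front : frontier Ω = ⋃ i, segment ℝ (p i) (p (i + 1))
  left : ∀ i, ∀ x ∈ openSegment ℝ (p i) (p (i + 1)), ∀ᶠ y in 𝓝 x,
    (y ∈ Ω ↔ 0 < cr (p (i + 1) - p i) (y - p i))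
  ne : ∀ i, p i ≠ p (i + 1)
  simple : ∀ i j, i ≠ j → ∀ x ∈ segment ℝ (p i) (p (i + 1)), x ∈ segment ℝ (p j) (p (j + 1)) →
    (j = i + 1 ∧ x = p j) ∨ (i = j + 1 ∧ x = p i)

/-- A semi-dispersive polygon: vertices, dispersive sides, radii and the interior of the
polygon. -/
structure Dom (n : ℕ) extends Table n where
  /-- the interior of the polygon -/
  Ω : Set ℂ

namespace Dom

variable {n : ℕ} (Y : Dom n)

/-- The region between the dispersive side `k` and the arc which replaces it: the part of the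
closed disc on the inner side of the side. -/
def lens (k : ZMod n) : Set ℂ := {x | 0 ≤ cr (Y.e k) (x - Y.p k) ∧ ‖x - Y.c k‖ ≤ Y.ρ k}

/-- The interior of the table: the points in the interior of the polygon which are not between a
dispersive side and its arc. -/
def inside (x : ℂ) : Prop := x ∈ Y.Ω ∧ ∀ k ∈ Y.D, x ∉ Y.lens k

/-- The billiard map as a relation: `Hit z z'` means that the ray of the phase point `z` runs
through the interior of the table until it hits the boundary (not at a corner and not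
tangentially), and that it is reflected there into the phase point `z'`. -/
def Hit (z z' : ZMod n × ℝ × ℝ) : Prop :=
  z.2 ∈ Y.Phase z.1 ∧ z'.2 ∈ Y.Phase z'.1 ∧ ∃ t : ℝ, 0 < t ∧
    Y.pos z'.1 z'.2.1 = Y.pos z.1 z.2.1 + t * Y.dir z ∧ Y.dirIn z' = Y.dir z ∧
    ∀ u ∈ Ioo 0 t, Y.inside (Y.pos z.1 z.2.1 + u * Y.dir z)

/-- `IsDeriv z z' A`: the billiard map sends `z` to `z'`, it is given near `z` by a function `F`
of `(s, θ)` with values on the component of `z'`, and `A` is the derivative of `F` at `z`. -/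
def IsDeriv (z z' : ZMod n × ℝ × ℝ) (A : ℝ × ℝ →L[ℝ] ℝ × ℝ) : Prop :=
  ∃ F : ℝ × ℝ → ℝ × ℝ, F z.2 = z'.2 ∧ HasFDerivAt F A z.2 ∧
    ∀ᶠ w in 𝓝 z.2, Y.Hit (z.1, w) (z'.1, F w)

/-- `Iter k z z' A`: the `k`-th iterate of the billiard map sends `z` to `z'` and has the
derivative `A` there. -/
def Iter : ℕ → ZMod n × ℝ × ℝ → ZMod n × ℝ × ℝ → (ℝ × ℝ →L[ℝ] ℝ × ℝ) → Prop
  | 0, z, z', A => z' = z ∧ A = ContinuousLinearMap.id ℝ (ℝ × ℝ)
  | k + 1, z, z', A => ∃ y B C, Y.IsDeriv z y B ∧ Iter k y z' C ∧ A = C.comp B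

/-- The table is hyperbolic: its billiard map has an invariant cone field.  The cone at `z` is
bounded by the lines of the linearly independent vectors `x z`, `y z`, which depend measurably
on `z`.  Almost every phase point (for `ds dθ`, equivalently for `sin θ ds dθ`) has an image
under the billiard map; the derivative maps the cone into the cone at the image; and the
derivative of some iterate maps the cone, apart from the zero vector, into the interior of the
cone at the image. -/
def Hyperbolic : Prop :=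
  ∃ x y : ZMod n × ℝ × ℝ → ℝ × ℝ,
    (∀ i, Measurable fun w => x (i, w)) ∧ (∀ i, Measurable fun w => y (i, w)) ∧
    (∀ z, (x z).1 * (y z).2 - (x z).2 * (y z).1 ≠ 0) ∧
    ∀ i, ∀ᵐ w : ℝ × ℝ, w ∈ Y.Phase i →
      (∃ z' A, Y.IsDeriv (i, w) z' A) ∧
      (∀ z' A, Y.IsDeriv (i, w) z' A →
        ∀ v ∈ cone (x (i, w)) (y (i, w)), A v ∈ cone (x z') (y z')) ∧
      ∃ k z' A, Y.Iter k (i, w) z' A ∧
        ∀ v ∈ cone (x (i, w)) (y (i, w)), v ≠ 0 → A v ∈ interior (cone (x z') (y z'))

end Dom

/-- Quantitative form of simplicity of the polygon and large radii. -/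
structure SG {n : ℕ} (Y : Dom n) (C η : ℝ) : Prop where
  hn : 3 ≤ n
  dom : PolyDom Y.p Y.Ω
  hC : ∀ i j, Y.ℓ i * Y.ℓ j ≤ C
  hη : 0 < η
  hη1 : η ≤ 1 / 2
  hρ : ∀ k ∈ Y.D, Y.ℓ k < 2 * Y.ρ k
  hbig : ∀ k ∈ Y.D, Y.ℓ k ≤ 2 * η * Y.h0 k
  adj : ∀ i, 4 * C * η < |cr (Y.e i) (Y.e (i + 1))| ∨
    (cr (Y.e i) (Y.e (i + 1)) = 0 ∧ 0 < dt (Y.e i) (Y.e (i + 1)))
  far : ∀ i j x a h b h', i ≠ j → j ≠ i + 1 → i ≠ j + 1 → InT Y.toTable η i x a h →
    ¬ InT Y.toTable η j x b h'

end Pool.Agent.Lib.MP_19d7db_an
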