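import Pool.Agent.Lib.MP_19d7db_an_S.HitLocal

/-!
# Semi-dispersive simple polygons: almost every phase point has an image
-/

open Complex Set Filter Topology MeasureTheory

namespace Pool.Agent.Lib.MP_19d7db_an

variable {n : ℕ}

namespace SG

variable {Y : Dom n} {C η : ℝ} (hg : SG Y C η)

include hg

/-- The table near a regular boundary point. -/
lemma inside_near [NeZero n] {i : ZMod n} {w : ℝ × ℝ} (hw : w ∈ Y.Phase i) :
    ∀ᶠ u : ℝ in 𝓝[>] 0, Y.inside (Y.pos i w.1 + u * Y.dir (i, w)) := by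
  have hu : ∀ᶠ u : ℝ in 𝓝[>] 0, 0 < u := eventually_mem_nhdsWithin
  have hcont : Continuous fun u : ℝ => Y.pos i w.1 + u * Y.dir (i, w) := by fun_prop
  have hlim : Tendsto (fun u : ℝ => Y.pos i w.1 + u * Y.dir (i, w)) (𝓝[>] 0)
      (𝓝 (Y.pos i w.1)) := by
    have := hcont.tendsto 0
    simp only [ofReal_zero, zero_mul, add_zero] at this
    exact this.mono_left nhdsWithin_le_nhds
  by_cases hi : i ∈ Y.D
  · filter_upwards [hlim.eventually (hg.near_D hw.1 hi), hu] with u h1 h2
    rw [h1]
    exact hg.leave_ball hi hw h2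
  · filter_upwards [hlim.eventually (hg.near_N hw.1 hi), hu] with u h1 h2
    rw [h1]
    exact hg.leave_side hi hw h2

/-- Existence of the next collision of a ray which avoids the corners and is not tangent to
the circles. -/
lemma exists_hit [NeZero n] {i : ZMod n} {w : ℝ × ℝ} (hw : w ∈ Y.Phase i)
    (hv : ∀ a, cr (Y.dir (i, w)) (Y.p a - Y.pos i w.1) ≠ 0)
    (hc : ∀ k ∈ Y.D, cr (Y.dir (i, w)) (Y.c k - Y.pos i w.1) ^ 2 ≠ Y.ρ k ^ 2) :
    ∃ j w', Y.Hit (i, w) (j, w') := by
  obtain ⟨d, hd⟩ := hg.dom.isBounded.exists_norm_le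
  set q := Y.pos i w.1 with hq
  set v := Y.dir (i, w) with hvd
  have hv1 : ‖v‖ = 1 := hg.norm_dir _
  have hnear := hg.inside_near hw
  rw [← hq, ← hvd] at hnear
  obtain ⟨ε, hε, hεin⟩ := mem_nhdsGT_iff_exists_Ioo_subset.1 hnear
  have hε0 : 0 < ε := hε
  have hcont : Continuous fun u : ℝ => q + u * v := by fun_prop
  have hfar : ∀ u : ℝ, d + ‖q‖ < u → ¬ Y.inside (q + u * v) := by
    intro u hu hin
    have h1 := hd (q + u * v) hin.1
    have h2 : (u : ℂ) * v = (q + u * v) - q := by ring
    have h3 : ‖(u : ℂ) * v‖ ≤ ‖q + u * v‖ + ‖q‖ := by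
      conv_lhs => rw [h2]
      exact norm_sub_le _ _
    rw [norm_mul, hv1, Complex.norm_real, Real.norm_eq_abs, mul_one] at h3
    have := le_abs_self u
    linarith
  set S : Set ℝ := {u | ε / 2 ≤ u ∧ ¬ Y.inside (q + u * v)} with hS
  have hSc : IsClosed S := by
    have h1 : IsClosed {u : ℝ | ¬ Y.inside (q + u * v)} := by
      have : {u : ℝ | ¬ Y.inside (q + u * v)} =
        (fun u : ℝ => q + u * v) ⁻¹' {x : ℂ | Y.inside x}ᶜ := rfl
      rw [this]
      exact (hg.isOpen_inside.isClosed_compl).preimage hcont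
    exact (isClosed_le continuous_const continuous_id).inter h1
  have hSn : S.Nonempty := by
    refine ⟨max (ε / 2) (d + ‖q‖ + 1), le_max_left _ _, hfar _ ?_⟩
    have := le_max_right (ε / 2) (d + ‖q‖ + 1)
    linarith
  have hSb : BddBelow S := ⟨ε / 2, fun u hu => hu.1⟩
  set t := sInf S with ht
  have htS : t ∈ S := hSc.csInf_mem hSn hSb
  have ht0 : 0 < t := by have := htS.1; linarith
  have hin : ∀ u ∈ Ioo 0 t, Y.inside (q + u * v) := by
    intro u hu
    by_cases h1 : u < ε
    · exact hεin ⟨hu.1, h1⟩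
    · by_contra h2
      have : u ∈ S := ⟨by linarith, h2⟩
      have := csInf_le hSb this
      linarith [hu.2]
  -- limit at `t`
  have htcl : t ∈ closure (Ioo 0 t) := by
    rw [closure_Ioo ht0.ne]; exact ⟨ht0.le, le_rfl⟩
  have hxcl : q + t * v ∈ closure {y | Y.inside y} :=
    map_mem_closure (f := fun u : ℝ => q + u * v) hcont htcl hin
  rcases hg.classify hxcl htS.2 with ⟨a, ha⟩ | ⟨j, s, hs, hx⟩
  · exfalso
    apply hv a
    have : Y.p a - q = t * v := by rw [← ha]; ring
    rw [this, cr_smul_right, cr_self, mul_zero]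
  have hback : Tendsto (fun r : ℝ => (q + t * v) + ((-r : ℝ) : ℂ) * v) (𝓝[>] 0)
      (𝓝 (Y.pos j s)) := by
    have hc1 : Continuous fun r : ℝ => (q + t * v) + ((-r : ℝ) : ℂ) * v := by fun_prop
    have h0 : (q + t * v) + ((-(0 : ℝ) : ℝ) : ℂ) * v = Y.pos j s := by rw [← hx]; simp
    have := hc1.tendsto 0
    rw [h0] at this
    exact this.mono_left nhdsWithin_le_nhds
  have hrin : ∀ᶠ r : ℝ in 𝓝[>] 0, Y.inside ((q + t * v) + ((-r : ℝ) : ℂ) * v) := by
    filter_upwards [Ioo_mem_nhdsGT ht0] with r hr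
    have h3 : (q + t * v) + ((-r : ℝ) : ℂ) * v = q + ((t - r : ℝ) : ℂ) * v := by
      push_cast; ring
    rw [h3]
    exact hin _ ⟨by linarith [hr.2], by linarith [hr.1]⟩
  -- transversality
  have hneg : cr (Y.tan j s) v < 0 := by
    by_cases hj : j ∈ Y.D
    · have h5 : ‖q + t * v - Y.c j‖ = Y.ρ j := by rw [hx, hg.norm_pos_sub_c hj]
      have h1 : ∀ᶠ r : ℝ in 𝓝[>] 0, dt v (q + t * v - Y.c j) ≤ r / 2 := by
        filter_upwards [hrin, hback.eventually (hg.near_D hs hj), self_mem_nhdsWithin]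
          with r hr1 hr2 hr3
        have hr0 : 0 < r := hr3
        have h2 := hr2.1 hr1
        have h4 := hg.sq_expand (q + t * v) v (Y.c j) (-r) hv1
        rw [h5] at h4
        have h6 : Y.ρ j ^ 2 < ‖q + t * v + ((-r : ℝ) : ℂ) * v - Y.c j‖ ^ 2 := by
          have := hg.rho_pos hj
          nlinarith
        rw [h4] at h6
        by_contra hcon
        push Not at hcon
        nlinarith
      have h2 : dt v (q + t * v - Y.c j) ≤ 0 := by
        have h7 : Tendsto (fun r : ℝ => r / 2) (𝓝[>] 0) (𝓝 0) := by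
          have h8 : Continuous fun r : ℝ => r / 2 := by fun_prop
          have := h8.tendsto 0
          rw [zero_div] at this
          exact this.mono_left nhdsWithin_le_nhds
        exact ge_of_tendsto h7 h1
      have h3 : dt v (q + t * v - Y.c j) ≠ 0 := by
        intro h0
        apply hc j hj
        have h4 := cr_sq_add_dt_sq v (q + t * v - Y.c j)
        rw [h0, hv1] at h4
        rw [h5] at h4
        have h6 : cr v (Y.c j - q) = -cr v (q + t * v - Y.c j) := by
          have : Y.c j - q = ((t : ℝ) : ℂ) * v - (q + t * v - Y.c j) := by ring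
          rw [this, cr_sub_right, cr_smul_right, cr_self]; ring
        rw [h6]
        linarith
      have h4 : dt v (q + t * v - Y.c j) = Y.ρ j * cr (Y.tan j s) v := by
        rw [hx, pos_sub_c hj, dt_smul_right, dt_I_right]
      have h5 := hg.rho_pos hj
      have h6 : dt v (q + t * v - Y.c j) < 0 := lt_of_le_of_ne h2 h3
      rw [h4] at h6
      by_contra hcon
      push Not at hcon
      have := mul_nonneg h5.le hcon
      linarith
    · have h1 : Y.f j (q + t * v) = 0 := by rw [hx]; exact hg.f_N hs hj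
      obtain ⟨r, ⟨hr1, hr2⟩, hr3⟩ := ((hrin.and (hback.eventually (hg.near_N hs hj))).and
        self_mem_nhdsWithin).exists
      have hr0 : 0 < r := hr3
      have h2 := hr2.1 hr1
      rw [Y.toTable.f_add, h1, hg.cr_e_eq hj s] at h2
      have h3 := hg.ell_pos j
      by_contra hcon
      push Not at hcon
      have := mul_nonneg hr0.le (mul_nonneg h3.le hcon)
      linarith
  -- the angle of incidence
  have hT1 : ‖Y.tan j s‖ = 1 := hg.norm_tan j s
  have hT0 : Y.tan j s ≠ 0 := by rw [← norm_pos_iff, hT1]; norm_num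
  set z := v / Y.tan j s with hz
  have hvz : v = Y.tan j s * z := by rw [hz]; field_simp
  have hz1 : ‖z‖ = 1 := by rw [hz, norm_div, hv1, hT1, div_one]
  have hzim : z.im < 0 := by
    rw [hvz, cr_mul_left, hT1] at hneg
    linarith
  have harg : Complex.arg z < 0 := Complex.arg_neg_iff.2 hzim
  have harg' : -Real.pi < Complex.arg z := Complex.neg_pi_lt_arg z
  have hzexp : z = exp (Complex.arg z * I) := by
    have := Complex.norm_mul_exp_arg_mul_I z
    rw [hz1, ofReal_one, one_mul] at this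
    exact this.symm
  refine ⟨j, (s, -Complex.arg z), hw, ⟨hs, ?_, ?_⟩, t, ht0, ?_, ?_, ?_⟩
  · simp only; linarith
  · simp only; linarith
  · simp only; rw [← hx]
  · rw [Table.dirIn]
    simp only
    rw [← hvd, hvz]
    congr 1
    conv_rhs => rw [hzexp]
    congr 1
    push_cast; ring
  · exact hin

/-- Almost every phase point has an image. -/
theorem ae_exists_hit [NeZero n] (i : ZMod n) :
    ∀ᵐ w : ℝ × ℝ, w ∈ Y.Phase i → ∃ j w', Y.Hit (i, w) (j, w') := by
  have hPm : MeasurableSet (Y.Phase i) := (isOpen_phase i).measurableSet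
  have hcP : Continuous fun w : ℝ × ℝ => Y.pos i w.1 := (hg.continuous_pos i).comp continuous_fst
  have hcd : Continuous fun w : ℝ × ℝ => Y.dir (i, w) := continuous_dir i
  have key : ∀ (z : ℂ) (r : ℝ), (∀ s ∈ Ioo 0 (Y.len i), z = Y.pos i s → r ≠ 0) →
      volume {w : ℝ × ℝ | w ∈ Y.Phase i ∧ cr (Y.dir (i, w)) (z - Y.pos i w.1) = r} = 0 := by
    intro z r hz
    have hm : MeasurableSet
        {w : ℝ × ℝ | w ∈ Y.Phase i ∧ cr (Y.dir (i, w)) (z - Y.pos i w.1) = r} := by
      apply hPm.inter
      exact (isClosed_eq (continuous_cr hcd (continuous_const.sub hcP))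
        continuous_const).measurableSet
    rw [Measure.volume_eq_prod, Measure.measure_prod_null hm]
    apply Eventually.of_forall
    intro s
    simp only [Pi.zero_apply]
    by_cases hs : s ∈ Ioo 0 (Y.len i)
    · by_cases hzs : z = Y.pos i s
      · convert measure_empty (μ := (volume : Measure ℝ))
        ext θ
        simp only [Set.mem_preimage, Set.mem_ofPred_eq, Set.mem_empty_iff_false, iff_false]
        rintro ⟨-, h⟩
        rw [hzs, sub_self] at h
        apply hz s hs hzs
        rw [← h]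
        simp [cr]
      have h1 := null_cr (hg.norm_tan i s) (sub_ne_zero.2 hzs) r
      apply measure_mono_null _ h1
      intro θ hθ
      exact hθ.2
    · convert measure_empty (μ := (volume : Measure ℝ))
      ext θ
      simp only [Set.mem_preimage, Set.mem_ofPred_eq, Set.mem_empty_iff_false, iff_false]
      intro h
      exact hs h.1.1
  have h1 : ∀ a, ∀ᵐ w : ℝ × ℝ, w ∈ Y.Phase i → cr (Y.dir (i, w)) (Y.p a - Y.pos i w.1) ≠ 0 := by
    intro a
    rw [ae_iff]
    convert key (Y.p a) 0 (fun s hs h => absurd h.symm (hg.pos_ne_vertex hs)) using 2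
    ext w
    simp only [Set.mem_ofPred_eq, Classical.not_imp, not_not]
  have h2 : ∀ k, ∀ᵐ w : ℝ × ℝ, w ∈ Y.Phase i → k ∈ Y.D →
      cr (Y.dir (i, w)) (Y.c k - Y.pos i w.1) ^ 2 ≠ Y.ρ k ^ 2 := by
    intro k
    by_cases hk : k ∈ Y.D
    swap
    · exact Eventually.of_forall fun w _ hk' => absurd hk' hk
    have hρ := hg.rho_pos hk
    have k1 := key (Y.c k) (Y.ρ k) (fun _ _ _ => hρ.ne')
    have k2 := key (Y.c k) (-Y.ρ k) (fun _ _ _ => by linarith)
    rw [ae_iff]
    apply measure_mono_null _ (measure_union_null k1 k2)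
    intro w hw
    simp only [Set.mem_ofPred_eq, Classical.not_imp, not_not] at hw
    obtain ⟨hw1, -, hw2⟩ := hw
    rcases sq_eq_sq_iff_eq_or_eq_neg.1 hw2 with h | h
    · left; exact ⟨hw1, h⟩
    · right; exact ⟨hw1, h⟩
  rw [← ae_all_iff] at h1 h2
  filter_upwards [h1, h2] with w h1 h2 hw
  exact hg.exists_hit hw (fun a => h1 a hw) (fun k hk => h2 k hw hk)

end SG

end Pool.Agent.Lib.MP_19d7db_an
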