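import Pool.Agent.Lib.MP_19d7db_an_S.Recur

/-!
# Semi-dispersive simple polygons: force fields

The component of the velocity in the direction of an affine force field `F q = a + b q` with
`0 ≤ b.re` does not decrease along the free paths, and it does not decrease at the collisions
with the sides to whose inner side `F` points.
-/

open Complex Set Filter Topology MeasureTheory

namespace Pool.Agent.Lib.MP_19d7db_an

variable {n : ℕ}

namespace SG

variable {Y : Dom n} {C η : ℝ} (hg : SG Y C η)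

include hg

/-- The change of the velocity component in the direction `u` at a neutral collision. -/
lemma momentum {i j : ZMod n} (hj : j ∉ Y.D) {w w' : ℝ × ℝ} (h : Y.Hit (i, w) (j, w')) (u : ℂ) :
    dt (Y.dir (j, w')) u = dt (Y.dir (i, w)) u +
      2 * Real.sin w'.2 * (cr (Y.e j) u / Y.ℓ j) := by
  obtain ⟨-, -, t, -, -, hdir, -⟩ := h
  rw [← hdir]
  have hℓ := hg.ell_pos j
  have h1 : cr (Y.e j) u / Y.ℓ j = cr (Y.e j / Y.ℓ j) u := by
    rw [hg.cr_e_eq hj 0, hg.tan_N hj, mul_div_cancel_left₀ _ hℓ.ne']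
  rw [h1, Table.dir, Table.dirIn, hg.tan_N hj]
  have e1 : exp (I * (w'.2 : ℂ)) = (Real.cos w'.2 : ℂ) + (Real.sin w'.2 : ℂ) * I := by
    rw [mul_comm, Complex.exp_mul_I]; push_cast; ring
  have e2 : exp (-(I * (w'.2 : ℂ))) = (Real.cos w'.2 : ℂ) - (Real.sin w'.2 : ℂ) * I := by
    have : -(I * (w'.2 : ℂ)) = (-(w'.2 : ℂ)) * I := by ring
    rw [this, Complex.exp_mul_I, Complex.cos_neg, Complex.sin_neg]; push_cast; ring
  simp only
  rw [e1, e2]
  set T := Y.e j / Y.ℓ j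
  simp only [dt, cr, mul_re, mul_im, add_re, add_im, sub_re, sub_im, ofReal_re, ofReal_im, I_re,
    I_im]
  ring

/-- A point of a neutral side as a convex combination of the vertices. -/
lemma pos_comb {i : ZMod n} {s : ℝ} (hs : s ∈ Ioo 0 (Y.len i)) (hi : i ∉ Y.D) :
    ∃ t : ℝ, 0 < t ∧ t < 1 ∧ Y.pos i s = (1 - t : ℝ) * Y.p i + t * Y.p (i + 1) := by
  have hℓ := hg.ell_pos i
  have hℓ' : (Y.ℓ i : ℂ) ≠ 0 := by exact_mod_cast hℓ.ne'
  rw [Y.len_N hi] at hs
  refine ⟨s / Y.ℓ i, div_pos hs.1 hℓ, (div_lt_one hℓ).2 hs.2, ?_⟩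
  rw [Y.pos_N hi, Table.e]
  push_cast
  field_simp
  ring

/-- A bound for the points of the neutral sides. -/
lemma exists_bound [NeZero n] : ∃ M, 0 < M ∧ ∀ i, i ∉ Y.D → ∀ s ∈ Ioo 0 (Y.len i),
    ‖Y.pos i s‖ ≤ M := by
  refine ⟨∑ i, ‖Y.p i‖ + 1, ?_, ?_⟩
  · have : 0 ≤ ∑ i, ‖Y.p i‖ := Finset.sum_nonneg fun _ _ => norm_nonneg _
    linarith
  · intro i hi s hs
    obtain ⟨t, ht0, ht1, h⟩ := hg.pos_comb hs hi
    have h1 : ∀ j, ‖Y.p j‖ ≤ ∑ i, ‖Y.p i‖ := fun j =>
      Finset.single_le_sum (f := fun i => ‖Y.p i‖) (fun i _ => norm_nonneg _) (Finset.mem_univ j)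
    have h2 := h1 i
    have h3 := h1 (i + 1)
    rw [h]
    refine (norm_add_le _ _).trans ?_
    rw [norm_mul, norm_mul, Complex.norm_real, Complex.norm_real, Real.norm_eq_abs,
      Real.norm_eq_abs, abs_of_pos ht0, abs_of_pos (by linarith : (0 : ℝ) < 1 - t)]
    have h4 := mul_le_mul_of_nonneg_left h2 (by linarith : (0 : ℝ) ≤ 1 - t)
    have h5 := mul_le_mul_of_nonneg_left h3 ht0.le
    linarith

/-- The power of the force along a free path and its impulse at a neutral collision. -/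
lemma gain (a b : ℂ) {i j : ZMod n} (hj : j ∉ Y.D) {w w' : ℝ × ℝ} (h : Y.Hit (i, w) (j, w')) :
    ∃ t : ℝ, 0 < t ∧ Y.pos j w'.1 = Y.pos i w.1 + t * Y.dir (i, w) ∧
      dt (Y.dir (j, w')) (a + b * Y.pos j w'.1) = dt (Y.dir (i, w)) (a + b * Y.pos i w.1) +
        t * b.re + 2 * Real.sin w'.2 * (cr (Y.e j) (a + b * Y.pos j w'.1) / Y.ℓ j) := by
  have h1 := hg.momentum hj h (a + b * Y.pos j w'.1)
  obtain ⟨hw, hw', t, ht, hpos, hdir, hin⟩ := h
  simp only at hw hw' hpos hdir hin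
  refine ⟨t, ht, hpos, ?_⟩
  rw [h1]
  have h4 : dt (Y.dir (i, w)) (a + b * Y.pos j w'.1) =
      dt (Y.dir (i, w)) (a + b * Y.pos i w.1) + t * b.re := by
    have h5 : dt (Y.dir (i, w)) (Y.dir (i, w)) = 1 := by
      rw [dt_self, hg.norm_dir]; norm_num
    rw [hpos]
    simp only [dt, add_re, add_im, mul_re, mul_im, ofReal_re, ofReal_im] at h5 ⊢
    linear_combination (t * b.re) * h5
  rw [h4]

/-- Almost no direction is parallel to a given vector. -/
lemma null_parallel {z : ℂ} (hz : z ≠ 0) (i : ZMod n) :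
    volume {w : ℝ × ℝ | w ∈ Y.Phase i ∧ cr (Y.dir (i, w)) z = 0} = 0 := by
  have hPm : MeasurableSet (Y.Phase i) := (isOpen_phase i).measurableSet
  have hcd : Continuous fun w : ℝ × ℝ => Y.dir (i, w) := continuous_dir i
  have hm : MeasurableSet {w : ℝ × ℝ | w ∈ Y.Phase i ∧ cr (Y.dir (i, w)) z = 0} :=
    hPm.inter (isClosed_eq (continuous_cr hcd continuous_const) continuous_const).measurableSet
  rw [Measure.volume_eq_prod, Measure.measure_prod_null hm]
  apply Eventually.of_forall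
  intro s
  simp only [Pi.zero_apply]
  apply measure_mono_null _ (null_cr (hg.norm_tan i s) hz 0)
  intro θ hθ
  exact hθ.2

omit hg in
/-- An affine function of the arc length with nonzero slope vanishes on a null set. -/
lemma null_affine (α : ℝ) {β : ℝ} (hβ : β ≠ 0) :
    volume {w : ℝ × ℝ | α + w.1 * β = 0} = 0 := by
  have h1 : {w : ℝ × ℝ | α + w.1 * β = 0} ⊆ ({-α / β} : Set ℝ) ×ˢ (Set.univ : Set ℝ) := by
    intro w hw
    have hw' : α + w.1 * β = 0 := hw
    refine ⟨?_, Set.mem_univ _⟩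
    rw [Set.mem_singleton_iff, eq_div_iff hβ]
    linarith
  apply measure_mono_null h1
  rw [Measure.volume_eq_prod, Measure.prod_prod, Real.volume_singleton, zero_mul]

/-- The components of the velocity along a force field which points to the inner side of the
neutral sides are constant along almost all neutral orbits, and this excludes them. -/
theorem null_of_force [NeZero n] {a b : ℂ} (hab : a ≠ 0 ∨ b ≠ 0) (hb : 0 ≤ b.re)
    (hF : ∀ i, i ∉ Y.D → 0 ≤ cr (Y.e i) (a + b * Y.p i) ∧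
      0 ≤ cr (Y.e i) (a + b * Y.p (i + 1))) (i : ZMod n) : volume (Y.S i) = 0 := by
  obtain ⟨M, hM0, hM⟩ := hg.exists_bound
  have hcomb : ∀ j s, j ∉ Y.D → s ∈ Ioo 0 (Y.len j) → 0 ≤ cr (Y.e j) (a + b * Y.pos j s) := by
    intro j s hj hs
    obtain ⟨h1, h2⟩ := hF j hj
    obtain ⟨t, ht0, ht1, ht⟩ := hg.pos_comb hs hj
    have e1 : cr (Y.e j) (a + b * Y.pos j s) = (1 - t) * cr (Y.e j) (a + b * Y.p j) +
        t * cr (Y.e j) (a + b * Y.p (j + 1)) := by
      have : a + b * Y.pos j s = ((1 - t : ℝ) : ℂ) * (a + b * Y.p j) +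
          (t : ℂ) * (a + b * Y.p (j + 1)) := by
        rw [ht]; push_cast; ring
      rw [this, cr_add_right, cr_smul_right, cr_smul_right]
    rw [e1]
    have := mul_nonneg (by linarith : (0 : ℝ) ≤ 1 - t) h1
    have := mul_nonneg ht0.le h2
    linarith
  -- the function
  set G : ZMod n → ℝ × ℝ → ℝ := fun i w => dt (Y.dir (i, w)) (a + b * Y.pos i w.1) with hG
  have hcdt : ∀ {g h : ℝ × ℝ → ℂ}, Continuous g → Continuous h →
      Continuous fun w => dt (g w) (h w) := by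
    intro g h hg hh
    unfold dt
    exact ((Complex.continuous_re.comp hg).mul (Complex.continuous_re.comp hh)).add
      ((Complex.continuous_im.comp hg).mul (Complex.continuous_im.comp hh))
  have hGm : ∀ i, Measurable (G i) := by
    intro i
    have h1 : Continuous fun w : ℝ × ℝ => Y.dir (i, w) := continuous_dir i
    have h2 : Continuous fun w : ℝ × ℝ => Y.pos i w.1 := (hg.continuous_pos i).comp continuous_fst
    exact (hcdt h1 (continuous_const.add (continuous_const.mul h2))).measurable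
  have hGK : ∀ i, i ∉ Y.D → ∀ w ∈ Y.Phase i, |G i w| ≤ ‖a‖ + ‖b‖ * M := by
    intro i hi w hw
    have h1 := abs_dt_le (Y.dir (i, w)) (a + b * Y.pos i w.1)
    rw [hg.norm_dir, one_mul] at h1
    have h2 := norm_add_le a (b * Y.pos i w.1)
    rw [norm_mul] at h2
    have h3 := mul_le_mul_of_nonneg_left (hM i hi w.1 hw.1) (norm_nonneg b)
    rw [hG]
    simp only
    linarith
  have hterm : ∀ i j w, w ∈ Y.S i → w ∈ Y.U i j → ∃ t : ℝ, 0 < t ∧
      Y.pos j (Y.Ψ i j w).1 = Y.pos i w.1 + t * Y.dir (i, w) ∧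
      G j (Y.Ψ i j w) = G i w + t * b.re + 2 * Real.sin (Y.Ψ i j w).2 *
        (cr (Y.e j) (a + b * Y.pos j (Y.Ψ i j w).1) / Y.ℓ j) ∧
      0 ≤ t * b.re ∧ 0 < Real.sin (Y.Ψ i j w).2 ∧
      0 ≤ cr (Y.e j) (a + b * Y.pos j (Y.Ψ i j w).1) := by
    intro i j w h1 h2
    have h3 := hg.Ψ_mem h1 h2
    have hj := S_neutral h3
    obtain ⟨t, ht, hpos, hd⟩ := hg.gain a b hj (Ψ_spec h2)
    exact ⟨t, ht, hpos, hd, mul_nonneg ht.le hb, hg.sin_pos_of_phase h3.1,
      hcomb j _ hj h3.1.1⟩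
  have heq := hg.recur hGm hGK (fun i j => Eventually.of_forall fun w h1 h2 => by
    obtain ⟨t, ht, hpos, hd, h3, h4, h5⟩ := hterm i j w h1 h2
    have h6 : 0 ≤ 2 * Real.sin (Y.Ψ i j w).2 *
        (cr (Y.e j) (a + b * Y.pos j (Y.Ψ i j w).1) / Y.ℓ j) :=
      mul_nonneg (by linarith) (div_nonneg h5 (hg.ell_pos j).le)
    linarith)
  -- both terms vanish
  have hzero : ∀ i j, ∀ᵐ w : ℝ × ℝ, w ∈ Y.S i → w ∈ Y.U i j → b.re = 0 ∧
      cr (Y.e j) (a + b * Y.pos j (Y.Ψ i j w).1) = 0 := by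
    intro i j
    filter_upwards [heq i j] with w h0 h1 h2
    obtain ⟨t, ht, hpos, hd, h3, h4, h5⟩ := hterm i j w h1 h2
    have hℓ := hg.ell_pos j
    have h6 : 0 ≤ 2 * Real.sin (Y.Ψ i j w).2 *
        (cr (Y.e j) (a + b * Y.pos j (Y.Ψ i j w).1) / Y.ℓ j) :=
      mul_nonneg (by linarith) (div_nonneg h5 hℓ.le)
    have h7 := h0 h1 h2
    have h8 : t * b.re = 0 := by linarith
    have h9 : 2 * Real.sin (Y.Ψ i j w).2 *
        (cr (Y.e j) (a + b * Y.pos j (Y.Ψ i j w).1) / Y.ℓ j) = 0 := by linarith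
    refine ⟨(mul_eq_zero.1 h8).resolve_left ht.ne', ?_⟩
    have h10 := (mul_eq_zero.1 h9).resolve_left (by linarith)
    exact (div_eq_zero_iff.1 h10).resolve_right hℓ.ne'
  -- it is enough to exclude the phase points with image on a given component
  suffices hkey : ∀ i j, ∀ᵐ w : ℝ × ℝ, ¬ (w ∈ Y.S i ∧ w ∈ Y.U i j) by
    apply measure_mono_null (S_sub i)
    rw [measure_iUnion_null_iff]
    intro j
    have := hkey i j
    rw [ae_iff] at this
    simp only [not_not] at this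
    exact this
  intro i j
  by_cases hbre : b.re = 0
  swap
  · filter_upwards [hzero i j] with w h1 h2
    exact hbre (h1 h2.1 h2.2).1
  by_cases hbim : b.im = 0
  swap
  · -- rotation field
    have hℓ := hg.ell_pos j
    have hβ : b.im * Y.ℓ j ≠ 0 := mul_ne_zero hbim hℓ.ne'
    have h1 := hg.null_preimage i j
      (null_affine (cr (Y.e j) (a + b * Y.p j)) hβ)
    have h2 : ∀ᵐ w : ℝ × ℝ, ¬ ∃ w' ∈ {w : ℝ × ℝ |
        cr (Y.e j) (a + b * Y.p j) + w.1 * (b.im * Y.ℓ j) = 0}, Y.Hit (i, w) (j, w') := by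
      rw [ae_iff]
      simpa only [not_not] using h1
    filter_upwards [hzero i j, h2] with w h3 h4 h5
    apply h4
    refine ⟨Y.Ψ i j w, ?_, Ψ_spec h5.2⟩
    have hj := S_neutral (hg.Ψ_mem h5.1 h5.2)
    have h6 := (h3 h5.1 h5.2).2
    change cr (Y.e j) (a + b * Y.p j) + (Y.Ψ i j w).1 * (b.im * Y.ℓ j) = 0
    rw [← h6, Y.pos_N hj]
    have h7 : (Y.e j).re * (Y.e j).re + (Y.e j).im * (Y.e j).im = Y.ℓ j ^ 2 := by
      rw [Table.ℓ, ← dt_self]; rfl
    have h8 : a + b * (Y.p j + ((Y.Ψ i j w).1 : ℂ) * (Y.e j / Y.ℓ j)) =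
        a + b * Y.p j + (((Y.Ψ i j w).1 / Y.ℓ j : ℝ) : ℂ) * (b * Y.e j) := by
      push_cast; ring
    rw [h8, cr_add_right (Y.e j) (a + b * Y.p j), cr_smul_right]
    have h9 : cr (Y.e j) (b * Y.e j) = b.im * Y.ℓ j ^ 2 := by
      rw [← h7]
      simp only [cr, mul_re, mul_im]
      rw [hbre]
      ring
    rw [h9]
    field_simp
  -- constant field
  have hb0 : b = 0 := Complex.ext hbre hbim
  have ha0 : a ≠ 0 := by
    rcases hab with h | h
    · exact h
    · exact absurd hb0 h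
  set G₂ : ZMod n → ℝ × ℝ → ℝ := fun i w => dt (Y.dir (i, w)) a * dt a (Y.pos i w.1) with hG₂
  have hG₂m : ∀ i, Measurable (G₂ i) := by
    intro i
    have h1 : Continuous fun w : ℝ × ℝ => Y.dir (i, w) := continuous_dir i
    have h2 : Continuous fun w : ℝ × ℝ => Y.pos i w.1 := (hg.continuous_pos i).comp continuous_fst
    exact ((hcdt h1 continuous_const).mul (hcdt continuous_const h2)).measurable
  have hG₂K : ∀ i, i ∉ Y.D → ∀ w ∈ Y.Phase i, |G₂ i w| ≤ ‖a‖ * (‖a‖ * M) := by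
    intro i hi w hw
    have h1 := abs_dt_le (Y.dir (i, w)) a
    rw [hg.norm_dir, one_mul] at h1
    have h2 := abs_dt_le a (Y.pos i w.1)
    have h3 := mul_le_mul_of_nonneg_left (hM i hi w.1 hw.1) (norm_nonneg a)
    rw [hG₂]
    simp only
    rw [abs_mul]
    exact mul_le_mul h1 (h2.trans h3) (abs_nonneg _) (norm_nonneg _)
  have hstep : ∀ i j, ∀ᵐ w : ℝ × ℝ, w ∈ Y.S i → w ∈ Y.U i j → ∃ t : ℝ, 0 < t ∧
      G₂ j (Y.Ψ i j w) = G₂ i w + t * dt (Y.dir (i, w)) a ^ 2 := by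
    intro i j
    filter_upwards [heq i j] with w h0 h1 h2
    obtain ⟨t, ht, hpos, -, -, -, -⟩ := hterm i j w h1 h2
    refine ⟨t, ht, ?_⟩
    have h3 := h0 h1 h2
    rw [hG] at h3
    simp only at h3
    rw [hb0, zero_mul, zero_mul, add_zero] at h3
    rw [hG₂]
    simp only
    rw [← h3, hpos, dt_add_right, dt_smul_right, dt_comm a (Y.dir (i, w))]
    ring
  have heq₂ := hg.recur hG₂m hG₂K (fun i j => by
    filter_upwards [hstep i j] with w h0 h1 h2
    obtain ⟨t, ht, h3⟩ := h0 h1 h2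
    have : 0 ≤ t * dt (Y.dir (i, w)) a ^ 2 := by positivity
    linarith)
  have hnull : ∀ᵐ w : ℝ × ℝ, ¬ (w ∈ Y.Phase i ∧ cr (Y.dir (i, w)) (I * a) = 0) := by
    rw [ae_iff]
    simpa only [not_not] using hg.null_parallel (mul_ne_zero I_ne_zero ha0) i
  filter_upwards [hstep i j, heq₂ i j, hnull] with w h1 h2 h3 h4
  apply h3
  refine ⟨h4.1.1, ?_⟩
  obtain ⟨t, ht, h5⟩ := h1 h4.1 h4.2
  have h6 := h2 h4.1 h4.2
  rw [cr_I_right]
  have h7 : t * dt (Y.dir (i, w)) a ^ 2 = 0 := by linarith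
  exact pow_eq_zero_iff (two_ne_zero) |>.1 ((mul_eq_zero.1 h7).resolve_left ht.ne')

theorem hyperbolic_of_force [NeZero n] {a b : ℂ} (hab : a ≠ 0 ∨ b ≠ 0) (hb : 0 ≤ b.re)
    (hF : ∀ i, i ∉ Y.D → 0 ≤ cr (Y.e i) (a + b * Y.p i) ∧
      0 ≤ cr (Y.e i) (a + b * Y.p (i + 1))) : Y.Hyperbolic :=
  hg.hyperbolic_of_ae fun i => hg.null_of_force hab hb hF i

end SG

end Pool.Agent.Lib.MP_19d7db_an
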