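import Pool.Agent.Lib.MP_19d7db_an_S.Local

/-!
# Semi-dispersive simple polygons: the boundary of the table
-/

open Complex Set Filter Topology MeasureTheory

namespace Pool.Agent.Lib.MP_19d7db_an

variable {n : ℕ}

namespace SG

variable {Y : Dom n} {C η : ℝ} (hg : SG Y C η)

include hg

omit hg in
lemma continuous_f' (m : ZMod n) : Continuous (Y.f m) := Good.continuous_f m

omit hg in
lemma p_succ (i : ZMod n) : Y.p (i + 1) = Y.p i + Y.e i := by simp [Table.e]

/-- Thin triangles of adjacent sides only meet in the common vertex. -/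
lemma adj_inter {i : ZMod n} {x : ℂ} {a h b h' : ℝ} (hT : InT Y.toTable η i x a h)
    (hT' : InT Y.toTable η (i + 1) x b h') : a = 1 ∧ b = 0 := by
  set A := cr (Y.e i) (Y.e (i + 1)) with hA
  set B := dt (Y.e i) (Y.e (i + 1)) with hB
  have hη := hg.hη
  have hη1 := hg.hη1
  have hC := hg.C_pos
  have hℓ := hg.ell_pos i
  have hBC : |B| ≤ C := hg.abs_dt_e i (i + 1)
  have hAC : |A| ≤ C := hg.abs_cr_e i (i + 1)
  have hz : (((a - 1 : ℝ) : ℂ) + (h : ℂ) * I) * Y.e i = ((b : ℂ) + (h' : ℂ) * I) * Y.e (i + 1) := by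
    have h1 := hT.hx
    have h2 := hT'.hx
    rw [p_succ] at h2
    rw [h1] at h2
    push_cast
    linear_combination h2
  have hre := congrArg Complex.re hz
  have him := congrArg Complex.im hz
  simp only [mul_re, mul_im, add_re, add_im, ofReal_re, ofReal_im, I_re, I_im] at hre him
  have hℓ2 : Y.ℓ i ^ 2 = (Y.e i).re * (Y.e i).re + (Y.e i).im * (Y.e i).im := by
    rw [Table.ℓ, ← dt_self]; rfl
  have r1 : (a - 1) * Y.ℓ i ^ 2 = b * B - h' * A := by
    rw [hℓ2, hA, hB]
    simp only [cr, dt]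
    linear_combination (Y.e i).re * hre + (Y.e i).im * him
  have r2 : h * Y.ℓ i ^ 2 = h' * B + b * A := by
    rw [hℓ2, hA, hB]
    simp only [cr, dt]
    linear_combination (Y.e i).re * him - (Y.e i).im * hre
  have hb0 := hT'.a0
  have hh0 := hT.h0
  have hh0' := hT'.h0
  have ha1 := hT.a1
  have hha := hT.hb
  have hhb := hT'.ha
  have hℓ2' : 0 < Y.ℓ i ^ 2 := by positivity
  have hBl := abs_le.1 hBC
  have hbz : b = 0 := by
    by_contra hb
    have hb' : 0 < b := lt_of_le_of_ne hb0 (Ne.symm hb)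
    rcases hg.adj i with hadj | ⟨h0, hpos⟩
    · rcases le_or_gt 0 A with hA0 | hA0
      · rw [← hA, abs_of_nonneg hA0] at hadj
        rw [abs_of_nonneg hA0] at hAC
        -- b A = h ℓ² - h' B ≤ η (1 - a) ℓ² + η b C
        have e1 : h * Y.ℓ i ^ 2 ≤ η * (1 - a) * Y.ℓ i ^ 2 :=
          mul_le_mul_of_nonneg_right hha hℓ2'.le
        have e2 : -(h' * B) ≤ η * b * C := by
          have : -(h' * B) ≤ h' * C := by nlinarith
          exact this.trans (mul_le_mul_of_nonneg_right hhb hC.le)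
        have e3 : (1 - a) * Y.ℓ i ^ 2 ≤ η * b * A + b * C := by
          have e4 : h' * A ≤ η * b * A := mul_le_mul_of_nonneg_right hhb hA0
          have e5 : -(b * B) ≤ b * C := by nlinarith
          linarith
        have e6 : η * ((1 - a) * Y.ℓ i ^ 2) ≤ η * (η * b * A + b * C) :=
          mul_le_mul_of_nonneg_left e3 hη.le
        have e7 : b * A ≤ η * (η * b * A + b * C) + η * b * C := by linarith
        have e8 : A ≤ η * (η * A + C) + η * C := by
          by_contra hcon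
          push Not at hcon
          have := mul_lt_mul_of_pos_left hcon hb'
          linarith
        have e9 : η * η * A ≤ 1 / 4 * A := by
          apply mul_le_mul_of_nonneg_right _ hA0
          nlinarith
        have e10 : 0 < C * η := mul_pos hC hη
        nlinarith
      · rw [← hA, abs_of_neg hA0] at hadj
        have e1 : 0 ≤ h * Y.ℓ i ^ 2 := by positivity
        have e2 : h' * B ≤ η * b * C := by
          have : h' * B ≤ h' * C := by nlinarith
          exact this.trans (mul_le_mul_of_nonneg_right hhb hC.le)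
        have e3 : -(b * A) ≤ η * b * C := by linarith
        have e4 : -A ≤ η * C := by
          by_contra hcon
          push Not at hcon
          have := mul_lt_mul_of_pos_left hcon hb'
          linarith
        have e10 : 0 < C * η := mul_pos hC hη
        nlinarith
    · rw [← hA] at h0
      rw [← hB] at hpos
      rw [h0] at r1
      have : 0 < b * B := mul_pos hb' hpos
      have : 0 ≤ (1 - a) * Y.ℓ i ^ 2 := mul_nonneg (by linarith) hℓ2'.le
      linarith
  refine ⟨?_, hbz⟩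
  have hh'z : h' = 0 := by
    rw [hbz] at hhb
    linarith
  rw [hbz, hh'z] at r1
  have : (a - 1) * Y.ℓ i ^ 2 = 0 := by rw [r1]; ring
  rcases mul_eq_zero.1 this with h1 | h1
  · linarith
  · exact absurd h1 hℓ2'.ne'

/-- Two different thin triangles only meet at vertices. -/
lemma inT_inter {i k : ZMod n} {x : ℂ} {a h b h' : ℝ} (hT : InT Y.toTable η i x a h)
    (hT' : InT Y.toTable η k x b h') (hik : i ≠ k) : a = 0 ∨ a = 1 := by
  by_cases h1 : k = i + 1
  · subst h1
    exact Or.inr (hg.adj_inter hT hT').1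
  · by_cases h2 : i = k + 1
    · subst h2
      exact Or.inl (hg.adj_inter hT' hT).2
    · exact absurd hT' (hg.far i k x a h b h' hik h1 h2 hT)

omit hg in
lemma inT_seg {j : ZMod n} (hη : 0 < η) {x : ℂ}
    (hx : x ∈ segment ℝ (Y.p j) (Y.p (j + 1))) : ∃ b, InT Y.toTable η j x b 0 := by
  rw [segment_eq_image'] at hx
  obtain ⟨b, ⟨hb0, hb1⟩, rfl⟩ := hx
  refine ⟨b, hb0, hb1, le_rfl, by positivity, ?_, ?_⟩
  · have : 0 ≤ 1 - b := by linarith
    positivity
  · simp only [Table.e, Complex.real_smul, ofReal_zero, zero_mul, add_zero]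

omit hg in
lemma mem_seg {j : ZMod n} {x : ℂ} {b h : ℝ} (hT : InT Y.toTable η j x b h) (h0 : h = 0) :
    x ∈ segment ℝ (Y.p j) (Y.p (j + 1)) := by
  rw [segment_eq_image']
  refine ⟨b, ⟨hT.a0, hT.a1⟩, ?_⟩
  have := hT.hx
  rw [h0] at this
  rw [this]
  simp only [Table.e, Complex.real_smul, ofReal_zero, zero_mul, add_zero]

omit hg in
lemma mem_openSeg {j : ZMod n} {x : ℂ} {b : ℝ} (hx : x = Y.p j + b * Y.e j) (h0 : 0 < b)
    (h1 : b < 1) : x ∈ openSegment ℝ (Y.p j) (Y.p (j + 1)) := by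
  rw [openSegment_eq_image']
  refine ⟨b, ⟨h0, h1⟩, ?_⟩
  rw [hx]
  simp only [Table.e, Complex.real_smul]

lemma seg_frontier {j : ZMod n} {x : ℂ} (hx : x ∈ segment ℝ (Y.p j) (Y.p (j + 1))) :
    x ∉ Y.Ω := by
  intro h
  have h1 : x ∈ frontier Y.Ω := by
    rw [hg.dom.front]
    exact Set.mem_iUnion.2 ⟨j, hx⟩
  rw [frontier, hg.dom.isOpen.interior_eq] at h1
  exact h1.2 h

/-- The thin triangles over the sides lie in the polygon. -/
lemma tri_mem {k : ZMod n} {x : ℂ} {a h : ℝ} (hT : InT Y.toTable η k x a h) (hh : 0 < h) :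
    x ∈ Y.Ω := by
  set T : Set ℂ := {x | ∃ a h, InT Y.toTable η k x a h ∧ 0 < h} with hTdef
  have hη := hg.hη
  have hconv : Convex ℝ T := by
    rintro x ⟨a, h, hx, hh⟩ y ⟨b, h', hy, hh'⟩ s t hs ht hst
    refine ⟨s * a + t * b, s * h + t * h', ⟨?_, ?_, ?_, ?_, ?_, ?_⟩, ?_⟩
    · have := hx.a0; have := hy.a0; positivity
    · have := hx.a1; have := hy.a1; nlinarith
    · have := hx.h0; have := hy.h0; positivity
    · have := mul_le_mul_of_nonneg_left hx.ha hs
      have := mul_le_mul_of_nonneg_left hy.ha ht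
      linarith
    · have := mul_le_mul_of_nonneg_left hx.hb hs
      have := mul_le_mul_of_nonneg_left hy.hb ht
      have : η * (1 - (s * a + t * b)) = s * (η * (1 - a)) + t * (η * (1 - b)) := by
        linear_combination (-η) * hst
      linarith
    · rw [hx.hx, hy.hx]
      simp only [Complex.real_smul]
      have hst' : (s : ℂ) + (t : ℂ) = 1 := by exact_mod_cast hst
      push_cast
      linear_combination (Y.p k) * hst'
    · rcases hs.eq_or_lt with h1 | h1
      · have h2 : t = 1 := by linarith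
        rw [← h1, h2]; linarith
      · have := mul_pos h1 hh
        have := mul_nonneg ht hh'.le
        linarith
  have hpre : IsPreconnected T := hconv.isPreconnected
  have hxT : x ∈ T := ⟨a, h, hT, hh⟩
  -- a point of the polygon
  have hmid : ∀ᶠ ε : ℝ in 𝓝[>] 0, Y.p k + ((1 / 2 : ℝ) + (ε : ℂ) * I) * Y.e k ∈ Y.Ω := by
    have hm : Y.p k + ((1 / 2 : ℝ) : ℂ) * Y.e k ∈ openSegment ℝ (Y.p k) (Y.p (k + 1)) :=
      mem_openSeg rfl (by norm_num) (by norm_num)
    have h1 := hg.dom.left k _ hm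
    have hc : Tendsto (fun ε : ℝ => Y.p k + ((1 / 2 : ℝ) + (ε : ℂ) * I) * Y.e k) (𝓝[>] 0)
        (𝓝 (Y.p k + ((1 / 2 : ℝ) : ℂ) * Y.e k)) := by
      have hc1 : Continuous fun ε : ℝ => Y.p k + ((1 / 2 : ℝ) + (ε : ℂ) * I) * Y.e k := by
        fun_prop
      have := hc1.tendsto 0
      simp only [ofReal_zero, zero_mul, add_zero] at this
      exact this.mono_left nhdsWithin_le_nhds
    filter_upwards [hc.eventually h1, self_mem_nhdsWithin] with ε h2 h3
    rw [h2]
    have h4 := Y.toTable.f_self_frame k (1 / 2) ε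
    rw [Table.f] at h4
    change 0 < cr (Y.e k) _
    rw [h4]
    have := hg.ell_pos k
    have h3' : 0 < ε := h3
    positivity
  have hsmall : ∀ᶠ ε : ℝ in 𝓝[>] 0, ε < η / 2 :=
    nhdsWithin_le_nhds (Iio_mem_nhds (by positivity))
  obtain ⟨ε, ⟨h1, h2⟩, h3⟩ := ((hmid.and hsmall).and self_mem_nhdsWithin).exists
  have h3' : 0 < ε := h3
  have hne : (T ∩ Y.Ω).Nonempty := ⟨_, ⟨1 / 2, ε, ⟨by norm_num, by norm_num, h3'.le,
    by linarith, by linarith, rfl⟩, h3'⟩, h1⟩
  have hno : ∀ y ∈ T, y ∉ frontier Y.Ω := by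
    rintro y ⟨b, h', hy, hh'⟩ hyf
    rw [hg.dom.front] at hyf
    obtain ⟨j, hj⟩ := Set.mem_iUnion.1 hyf
    obtain ⟨c, hc⟩ := inT_seg hη hj
    by_cases hjk : k = j
    · subst hjk
      have e1 : Y.f k y = h' * Y.ℓ k ^ 2 := by rw [hy.hx, Y.toTable.f_self_frame]
      have e2 : Y.f k y = 0 * Y.ℓ k ^ 2 := by rw [hc.hx, Y.toTable.f_self_frame]
      have := hg.ell_pos k
      have : 0 < h' * Y.ℓ k ^ 2 := by positivity
      rw [e1] at e2
      linarith
    · rcases hg.inT_inter hy hc hjk with h4 | h4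
      · have := hy.ha
        rw [h4] at this
        linarith
      · have := hy.hb
        rw [h4] at this
        linarith
  have hcov : T ⊆ Y.Ω ∪ (closure Y.Ω)ᶜ := by
    intro y hy
    by_cases h4 : y ∈ Y.Ω
    · exact Or.inl h4
    · refine Or.inr fun hcl => hno y hy ⟨hcl, ?_⟩
      rwa [hg.dom.isOpen.interior_eq]
  by_contra hcon
  obtain ⟨y, -, hy1, hy2⟩ := hpre Y.Ω (closure Y.Ω)ᶜ hg.dom.isOpen
    isClosed_closure.isOpen_compl hcov hne ⟨x, hxT, (hcov hxT).resolve_left hcon⟩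
  exact hy2 (subset_closure hy1)

/-- The open arcs lie in the polygon. -/
lemma arc_mem {k : ZMod n} (hk : k ∈ Y.D) {s : ℝ} (hs : s ∈ Ioo 0 (Y.len k)) :
    Y.pos k s ∈ Y.Ω := by
  obtain ⟨a, h, hT, h0, h1, h2, -⟩ := hg.side_frame hs
  refine hg.tri_mem hT ?_
  have h3 := h2 hk
  rw [hT.hx, Y.toTable.f_self_frame] at h3
  have := hg.ell_pos k
  by_contra hcon
  push Not at hcon
  have : h * Y.ℓ k ^ 2 ≤ 0 := mul_nonpos_of_nonpos_of_nonneg hcon (by positivity)
  linarith

omit hg in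
lemma isClosed_lens (k : ZMod n) : IsClosed (Y.lens k) :=
  (isClosed_le continuous_const (continuous_cr continuous_const
    (continuous_id.sub continuous_const))).inter
    (isClosed_le (continuous_id.sub continuous_const).norm continuous_const)

/-- An open boundary component does not meet the closed lenses of the other sides. -/
lemma not_lens {i k : ZMod n} {s : ℝ} (hs : s ∈ Ioo 0 (Y.len i)) (hk : k ∈ Y.D)
    (hki : k ≠ i) : Y.pos i s ∉ Y.lens k := by
  rintro ⟨h1, h2⟩
  obtain ⟨a, h, hT, h0, h1', -, -⟩ := hg.side_frame hs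
  have hT' := hg.inT_of_mem_ball hk (x := Y.pos i s) h1 h2
  rcases hg.inT_inter hT hT' hki.symm with h3 | h3 <;> linarith

lemma pos_ne_vertex {i j : ZMod n} {s : ℝ} (hs : s ∈ Ioo 0 (Y.len i)) :
    Y.pos i s ≠ Y.p j := by
  intro h
  obtain ⟨a, h', hT, h0, h1, -, -⟩ := hg.side_frame hs
  have hη := hg.hη
  by_cases hj : i = j
  · have hT' : InT Y.toTable η (i - 1) (Y.pos i s) 1 0 := by
      refine ⟨by norm_num, le_rfl, le_rfl, by linarith, by linarith, ?_⟩
      rw [h, ← hj]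
      have h3 := p_succ (Y := Y) (i - 1)
      rw [sub_add_cancel] at h3
      rw [h3]
      push_cast
      ring
    have h2 : i ≠ i - 1 := by
      intro h4
      have := succ_ne hg.hn (i - 1)
      rw [sub_add_cancel] at this
      exact this h4
    rcases hg.inT_inter hT hT' h2 with h3 | h3 <;> linarith
  · have hT' : InT Y.toTable η j (Y.pos i s) 0 0 := by
      refine ⟨le_rfl, by norm_num, le_rfl, by linarith, by linarith, ?_⟩
      rw [h]
      push_cast
      ring
    rcases hg.inT_inter hT hT' hj with h3 | h3 <;> linarith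

lemma pos_seg {i : ZMod n} {s : ℝ} (hs : s ∈ Ioo 0 (Y.len i)) (hi : i ∉ Y.D) :
    Y.pos i s ∈ openSegment ℝ (Y.p i) (Y.p (i + 1)) := by
  have hℓ := hg.ell_pos i
  rw [Y.len_N hi] at hs
  have hx : Y.pos i s = Y.p i + ((s / Y.ℓ i : ℝ) : ℂ) * Y.e i := by
    rw [Y.pos_N hi]; push_cast; ring
  exact mem_openSeg hx (div_pos hs.1 hℓ) ((div_lt_one hℓ).2 hs.2)

/-- An open boundary component does not meet the interior of the table. -/
lemma not_inside_pos {i : ZMod n} {s : ℝ} (hs : s ∈ Ioo 0 (Y.len i)) :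
    ¬ Y.inside (Y.pos i s) := by
  intro h
  by_cases hi : i ∈ Y.D
  · refine h.2 i hi ⟨?_, (hg.norm_pos_sub_c hi s).le⟩
    obtain ⟨a, h', hT, h0, h1, h2, -⟩ := hg.side_frame hs
    exact (h2 hi).le
  · exact hg.seg_frontier (openSegment_subset_segment ℝ _ _ (hg.pos_seg hs hi)) h.1

lemma f_N {i : ZMod n} {s : ℝ} (hs : s ∈ Ioo 0 (Y.len i)) (hi : i ∉ Y.D) :
    Y.f i (Y.pos i s) = 0 := by
  obtain ⟨a, h, hT, h0, h1, -, h2⟩ := hg.side_frame hs
  exact h2 hi

lemma near_lens [NeZero n] {i : ZMod n} {s : ℝ} (hs : s ∈ Ioo 0 (Y.len i)) :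
    ∀ᶠ y in 𝓝 (Y.pos i s), ∀ k ∈ Y.D, k ≠ i → y ∉ Y.lens k := by
  have : ∀ᶠ y in 𝓝 (Y.pos i s), ∀ k, k ∈ Y.D → k ≠ i → y ∉ Y.lens k := by
    rw [eventually_all]
    intro k
    by_cases hk : k ∈ Y.D
    swap
    · exact Eventually.of_forall fun u hk' => absurd hk' hk
    by_cases hki : k = i
    · exact Eventually.of_forall fun u _ hki' => absurd hki hki'
    filter_upwards [(isClosed_lens (Y := Y) k).isOpen_compl.mem_nhds (hg.not_lens hs hk hki)]
      with y hy _ _
    exact hy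
  exact this

/-- The table near a regular point of a neutral side. -/
lemma near_N [NeZero n] {i : ZMod n} {s : ℝ} (hs : s ∈ Ioo 0 (Y.len i)) (hi : i ∉ Y.D) :
    ∀ᶠ y in 𝓝 (Y.pos i s), (Y.inside y ↔ 0 < Y.f i y) := by
  filter_upwards [hg.near_lens hs, hg.dom.left i _ (hg.pos_seg hs hi)] with y h1 h2
  constructor
  · intro h
    exact h2.1 h.1
  · intro h
    refine ⟨h2.2 h, fun k hk => h1 k hk ?_⟩
    rintro rfl
    exact hi hk

/-- The table near a regular point of a dispersive side. -/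
lemma near_D [NeZero n] {i : ZMod n} {s : ℝ} (hs : s ∈ Ioo 0 (Y.len i)) (hi : i ∈ Y.D) :
    ∀ᶠ y in 𝓝 (Y.pos i s), (Y.inside y ↔ Y.ρ i < ‖y - Y.c i‖) := by
  have hf : 0 < Y.f i (Y.pos i s) := by
    obtain ⟨a, h', hT, h0, h1, h2, -⟩ := hg.side_frame hs
    exact h2 hi
  filter_upwards [hg.near_lens hs, hg.dom.isOpen.mem_nhds (hg.arc_mem hi hs),
    (isOpen_lt continuous_const (continuous_f' (Y := Y) i)).mem_nhds hf] with y h1 h2 h3
  constructor
  · intro h
    by_contra hcon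
    push Not at hcon
    exact h.2 i hi ⟨h3.le, hcon⟩
  · intro h
    refine ⟨h2, fun k hk => ?_⟩
    by_cases hki : k = i
    · subst hki
      rintro ⟨-, h5⟩
      linarith
    · exact h1 k hk hki

/-- A point of a circle on the inner side of the chord is a point of the arc. -/
lemma arc_param {k : ZMod n} (hk : k ∈ Y.D) {x : ℂ} (hkx : ‖x - Y.c k‖ = Y.ρ k)
    (h1 : 0 < Y.f k x) : ∃ s ∈ Ioo 0 (Y.len k), x = Y.pos k s := by
  have hℓ := hg.ell_pos k
  have hρ := hg.rho_pos hk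
  have hρ' : (Y.ρ k : ℂ) ≠ 0 := by exact_mod_cast hρ.ne'
  have hu : Y.e k / Y.ℓ k ≠ 0 := by
    intro h; have := hg.norm_unit k; rw [h, norm_zero] at this; exact zero_ne_one this
  have hIu : (Y.ρ k : ℂ) * (I * (Y.e k / Y.ℓ k)) ≠ 0 :=
    mul_ne_zero hρ' (mul_ne_zero I_ne_zero hu)
  set w : ℂ := (x - Y.c k) / (Y.ρ k * (I * (Y.e k / Y.ℓ k))) with hw
  have hw1 : ‖w‖ = 1 := by
    rw [hw, norm_div, hkx, norm_mul, norm_mul, hg.norm_unit, Complex.norm_I, Complex.norm_real,
      Real.norm_eq_abs, abs_of_pos hρ]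
    field_simp
  have hxw : x = Y.c k + Y.ρ k * (I * (Y.e k / Y.ℓ k)) * w := by
    rw [hw, mul_div_cancel₀ _ hIu]; ring
  have hwφ : w = exp (Complex.arg w * I) := by
    have := Complex.norm_mul_exp_arg_mul_I w
    rw [hw1, ofReal_one, one_mul] at this
    exact this.symm
  set φ := Complex.arg w with hφ
  have h2 : Y.f k x = Y.ℓ k * (Y.ρ k * Real.cos φ - Y.h0 k) := by
    conv_lhs => rw [hxw]
    rw [hg.f_arc hk, hwφ, Complex.exp_ofReal_mul_I_re]
  have h3 : Real.cos (Y.β k) < Real.cos φ := by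
    rw [h2, ← hg.cos_beta hk] at h1
    by_contra hcon
    push Not at hcon
    have : Y.ρ k * Real.cos φ - Y.ρ k * Real.cos (Y.β k) ≤ 0 := by nlinarith
    nlinarith
  have h4 : |φ| < Y.β k := by
    by_contra hcon
    push Not at hcon
    have h5 : |φ| ≤ Real.pi := Complex.abs_arg_le_pi w
    have h6 := Real.cos_le_cos_of_nonneg_of_le_pi (hg.beta_pos hk).le h5 hcon
    rw [Real.cos_abs] at h6
    linarith
  rw [abs_lt] at h4
  refine ⟨Y.ρ k * (Y.β k - φ), ⟨?_, ?_⟩, ?_⟩
  · have : 0 < Y.β k - φ := by linarith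
    positivity
  · rw [Y.len_D hk]; nlinarith
  · rw [Y.pos_D hk]
    have : Y.β k - Y.ρ k * (Y.β k - φ) / Y.ρ k = φ := by field_simp; ring
    rw [this]
    conv_lhs => rw [hxw, hwφ]
    rw [mul_comm (φ : ℂ) I]

/-- Classification of the boundary points of the table. -/
lemma classify {x : ℂ} (hcl : x ∈ closure {y | Y.inside y}) (hx : ¬ Y.inside x) :
    (∃ j, x = Y.p j) ∨ ∃ j, ∃ s ∈ Ioo 0 (Y.len j), x = Y.pos j s := by
  have hη := hg.hη
  have hclΩ : x ∈ closure Y.Ω := closure_mono (fun y hy => hy.1) hcl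
  by_cases hxΩ : x ∈ Y.Ω
  · -- a point of a lens
    have hex : ∃ k ∈ Y.D, x ∈ Y.lens k := by
      by_contra hcon
      push Not at hcon
      exact hx ⟨hxΩ, hcon⟩
    obtain ⟨k, hk, h1, h2⟩ := hex
    have hT := hg.inT_of_mem_ball hk (x := x) h1 h2
    have hf : 0 < Y.f k x := by
      rcases h1.eq_or_lt with h3 | h3
      · exfalso
        have h4 : Y.f k x = 0 := h3.symm
        refine hg.seg_frontier (mem_seg hT ?_) hxΩ
        rw [h4, zero_div]
      · exact h3
    have hρ : ‖x - Y.c k‖ = Y.ρ k := by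
      rcases h2.eq_or_lt with h3 | h3
      · exact h3
      · exfalso
        have hn : {y : ℂ | 0 < Y.f k y ∧ ‖y - Y.c k‖ < Y.ρ k} ∈ 𝓝 x :=
          ((isOpen_lt continuous_const (continuous_f' (Y := Y) k)).inter
            (isOpen_lt (continuous_id.sub continuous_const).norm
              continuous_const)).mem_nhds ⟨hf, h3⟩
        obtain ⟨y, hy1, hy2⟩ := mem_closure_iff_nhds.1 hcl _ hn
        exact hy2.2 k hk ⟨hy1.1.le, hy1.2.le⟩
    exact Or.inr ⟨k, hg.arc_param hk hρ hf⟩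
  · have hfr : x ∈ frontier Y.Ω := ⟨hclΩ, by rwa [hg.dom.isOpen.interior_eq]⟩
    rw [hg.dom.front] at hfr
    obtain ⟨j, hj⟩ := Set.mem_iUnion.1 hfr
    have hj' := hj
    rw [segment_eq_image'] at hj'
    obtain ⟨b, ⟨hb0, hb1⟩, hb⟩ := hj'
    have hxb : x = Y.p j + b * Y.e j := by
      rw [← hb]
      simp only [Table.e, Complex.real_smul]
    rcases hb0.eq_or_lt with h6 | h6
    · left; refine ⟨j, ?_⟩; rw [hxb, ← h6]; push_cast; ring
    rcases hb1.eq_or_lt with h7 | h7
    · left; refine ⟨j + 1, ?_⟩; rw [hxb, h7, p_succ]; push_cast; ring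
    have hos := mem_openSeg hxb h6 h7
    have hℓ := hg.ell_pos j
    by_cases hjD : j ∈ Y.D
    · exfalso
      have h8 : ‖x - Y.c j‖ < Y.ρ j := by
        have h9 := hg.norm_sub_c hjD b 0
        have h10 : Y.p j + ((b : ℂ) + ((0 : ℝ) : ℂ) * I) * Y.e j = x := by
          rw [hxb]; push_cast; ring
        rw [h10] at h9
        have h11 := hg.rho_pos hjD
        have h12 : 0 < Y.ℓ j ^ 2 * (b * (1 - b)) := by
          have := sub_pos.2 h7; positivity
        have h13 : ‖x - Y.c j‖ ^ 2 < Y.ρ j ^ 2 := by rw [h9]; nlinarith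
        exact lt_of_pow_lt_pow_left₀ 2 h11.le h13
      have hn : {y : ℂ | ‖y - Y.c j‖ < Y.ρ j} ∈ 𝓝 x :=
        (isOpen_lt (continuous_id.sub continuous_const).norm continuous_const).mem_nhds h8
      obtain ⟨y, ⟨hy1, hy3⟩, hy2⟩ := mem_closure_iff_nhds.1 hcl _
        (Filter.inter_mem hn (hg.dom.left j x hos))
      have hy1' : ‖y - Y.c j‖ < Y.ρ j := hy1
      have hy3' : (y ∈ Y.Ω ↔ 0 < cr (Y.p (j + 1) - Y.p j) (y - Y.p j)) := hy3
      exact hy2.2 j hjD ⟨(hy3'.1 hy2.1).le, hy1'.le⟩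
    · right
      refine ⟨j, b * Y.ℓ j, ⟨by positivity, ?_⟩, ?_⟩
      · rw [Y.len_N hjD]; nlinarith
      · rw [Y.pos_N hjD]
        have hℓ' : (Y.ℓ j : ℂ) ≠ 0 := by exact_mod_cast hℓ.ne'
        conv_lhs => rw [hxb]
        push_cast
        field_simp

end SG

end Pool.Agent.Lib.MP_19d7db_an
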