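import Pool.Agent.Lib.MP_19d7db_an_S.Defs

/-!
# Semi-dispersive simple polygons: local facts about the sides and arcs
-/

open Complex Set Filter Topology MeasureTheory

namespace Pool.Agent.Lib.MP_19d7db_an

variable {n : ℕ}

namespace SG

variable {Y : Dom n} {C η : ℝ} (hg : SG Y C η)

include hg

lemma ell_pos (i : ZMod n) : 0 < Y.ℓ i := by
  rw [Table.ℓ, norm_pos_iff, Table.e, sub_ne_zero]
  exact (hg.dom.ne i).symm

lemma e_ne (i : ZMod n) : Y.e i ≠ 0 := by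
  have := hg.ell_pos i
  rw [Table.ℓ, norm_pos_iff] at this
  exact this

omit hg in
/-- Every point has coordinates in the frame of a side. -/
lemma exists_frame {i : ZMod n} (hℓ : 0 < Y.ℓ i) (x : ℂ) :
    x = Y.p i + ((dt (Y.e i) (x - Y.p i) / Y.ℓ i ^ 2 : ℝ) +
      (Y.f i x / Y.ℓ i ^ 2 : ℝ) * I) * Y.e i :=
  Good.exists_frame hℓ x

lemma C_pos : 0 < C := by
  have h1 := hg.hC 0 0
  have h2 := hg.ell_pos 0
  nlinarith

lemma abs_dt_e (i j : ZMod n) : |dt (Y.e i) (Y.e j)| ≤ C := (abs_dt_le _ _).trans (hg.hC i j)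

lemma abs_cr_e (i j : ZMod n) : |cr (Y.e i) (Y.e j)| ≤ C := (abs_cr_le _ _).trans (hg.hC i j)

lemma rho_pos {k : ZMod n} (hk : k ∈ Y.D) : 0 < Y.ρ k := by
  have := hg.hρ k hk; have := hg.ell_pos k; linarith

lemma h0_pos {k : ZMod n} (hk : k ∈ Y.D) : 0 < Y.h0 k := by
  have h1 := hg.hbig k hk
  have h2 := hg.ell_pos k
  have h3 := hg.hη
  by_contra hcon
  push Not at hcon
  nlinarith

lemma h0_sq {k : ZMod n} (hk : k ∈ Y.D) : Y.h0 k ^ 2 = Y.ρ k ^ 2 - (Y.ℓ k / 2) ^ 2 := by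
  rw [Table.h0, Real.sq_sqrt]
  have := hg.hρ k hk; have := hg.ell_pos k
  nlinarith

lemma norm_sub_c {k : ZMod n} (hk : k ∈ Y.D) (a h : ℝ) :
    ‖Y.p k + (a + h * I) * Y.e k - Y.c k‖ ^ 2 =
      Y.ρ k ^ 2 + Y.ℓ k ^ 2 * (a ^ 2 + h ^ 2 - a) + 2 * Y.h0 k * h * Y.ℓ k := by
  have hℓ := hg.ell_pos k
  have hℓ' : (Y.ℓ k : ℂ) ≠ 0 := by exact_mod_cast hℓ.ne'
  have h1 : Y.p k + (a + h * I) * Y.e k - Y.c k =
      ((a - 1 / 2 : ℝ) + (h + Y.h0 k / Y.ℓ k : ℝ) * I) * Y.e k := by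
    have hp : Y.p (k + 1) = Y.p k + Y.e k := by simp [Table.e]
    rw [Table.c, hp]
    change _ - (_ - I * (Y.e k / Y.ℓ k) * (Y.h0 k : ℝ)) = _
    push_cast
    field_simp
    ring
  rw [h1, norm_mul, mul_pow, ← Table.ℓ]
  have h2 : ‖((a - 1 / 2 : ℝ) + (h + Y.h0 k / Y.ℓ k : ℝ) * I : ℂ)‖ ^ 2 =
      (a - 1 / 2) ^ 2 + (h + Y.h0 k / Y.ℓ k) ^ 2 := by
    rw [← dt_self]
    simp only [dt, add_re, mul_re, add_im, mul_im, ofReal_re, ofReal_im, I_re, I_im]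
    ring
  rw [h2]
  have h3 := hg.h0_sq hk
  field_simp
  linear_combination 4 * h3

/-- The part of the closed disc on the inner side of the chord lies in the thin triangle. -/
lemma inT_of_mem_ball {k : ZMod n} (hk : k ∈ Y.D) {x : ℂ} (hf : 0 ≤ Y.f k x)
    (hx : ‖x - Y.c k‖ ≤ Y.ρ k) :
    InT Y.toTable η k x (dt (Y.e k) (x - Y.p k) / Y.ℓ k ^ 2) (Y.f k x / Y.ℓ k ^ 2) := by
  have hℓ := hg.ell_pos k
  have hfr := exists_frame (Y := Y) hℓ x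
  set a := dt (Y.e k) (x - Y.p k) / Y.ℓ k ^ 2
  set h := Y.f k x / Y.ℓ k ^ 2
  have hh : 0 ≤ h := by positivity
  have h1 := hg.norm_sub_c hk a h
  rw [← hfr] at h1
  have h2 : ‖x - Y.c k‖ ^ 2 ≤ Y.ρ k ^ 2 := by
    have := norm_nonneg (x - Y.c k); nlinarith
  have h3 := hg.h0_pos hk
  have h4 : Y.ℓ k * (a ^ 2 + h ^ 2 - a) + 2 * Y.h0 k * h ≤ 0 := by
    by_contra hcon
    push Not at hcon
    have := mul_pos hℓ hcon
    nlinarith
  have h5 : 0 ≤ a * (1 - a) := by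
    by_contra hcon
    push Not at hcon
    have h6 : 0 < Y.ℓ k * (-(a * (1 - a))) := mul_pos hℓ (by linarith)
    have h7 : 0 ≤ 2 * Y.h0 k * h := by positivity
    nlinarith [mul_nonneg hℓ.le (sq_nonneg h)]
  have ha0 : 0 ≤ a := by
    by_contra hcon; push Not at hcon; nlinarith
  have ha1 : a ≤ 1 := by
    by_contra hcon; push Not at hcon; nlinarith
  have h8 : h ≤ η * (a * (1 - a)) := by
    have hb := hg.hbig k hk
    have h9 : 2 * Y.h0 k * h ≤ Y.ℓ k * (a * (1 - a)) := by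
      nlinarith [mul_nonneg hℓ.le (sq_nonneg h)]
    have h10 : Y.ℓ k * (a * (1 - a)) ≤ 2 * η * Y.h0 k * (a * (1 - a)) :=
      mul_le_mul_of_nonneg_right hb h5
    by_contra hcon
    push Not at hcon
    nlinarith [mul_pos h3 (sub_pos.2 hcon)]
  have hη := hg.hη
  exact ⟨ha0, ha1, hh, h8.trans (by nlinarith [mul_nonneg hη.le ha0]),
    h8.trans (by nlinarith [mul_nonneg hη.le (sub_nonneg.2 ha1)]), hfr⟩

lemma kappa_nonneg (k : ZMod n) : 0 ≤ Y.κ k := by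
  by_cases hk : k ∈ Y.D
  · rw [Y.κ_D hk]; have := hg.rho_pos hk; positivity
  · rw [Y.κ_N hk]

lemma kappa_pos {k : ZMod n} (hk : k ∈ Y.D) : 0 < Y.κ k := by
  rw [Y.κ_D hk]; have := hg.rho_pos hk; positivity

lemma beta_pos {k : ZMod n} (hk : k ∈ Y.D) : 0 < Y.β k := by
  rw [Y.β_D hk, Real.arcsin_pos]
  have := hg.rho_pos hk; have := hg.ell_pos k; positivity

lemma ratio_lt {k : ZMod n} (hk : k ∈ Y.D) : Y.ℓ k / (2 * Y.ρ k) < 1 := by
  have := hg.rho_pos hk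
  rw [div_lt_one (by positivity)]
  exact hg.hρ k hk

lemma ratio_pos {k : ZMod n} (hk : k ∈ Y.D) : 0 < Y.ℓ k / (2 * Y.ρ k) := by
  have := hg.rho_pos hk; have := hg.ell_pos k; positivity

lemma beta_lt {k : ZMod n} (hk : k ∈ Y.D) : Y.β k < Real.pi / 2 := by
  rw [Y.β_D hk, Real.arcsin_lt_pi_div_two]
  exact hg.ratio_lt hk

lemma sin_beta {k : ZMod n} (hk : k ∈ Y.D) : Y.ρ k * Real.sin (Y.β k) = Y.ℓ k / 2 := by
  rw [Y.β_D hk, Real.sin_arcsin (by linarith [hg.ratio_pos hk]) (hg.ratio_lt hk).le]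
  have := hg.rho_pos hk
  field_simp

lemma cos_beta {k : ZMod n} (hk : k ∈ Y.D) : Y.ρ k * Real.cos (Y.β k) = Y.h0 k := by
  have h1 : 0 ≤ Real.cos (Y.β k) := Real.cos_nonneg_of_mem_Icc
    ⟨by linarith [hg.beta_pos hk, Real.pi_pos], (hg.beta_lt hk).le⟩
  have h2 := hg.rho_pos hk
  have h3 := hg.h0_sq hk
  have h4 := hg.sin_beta hk
  have h5 := Real.sin_sq_add_cos_sq (Y.β k)
  have h6 : (Y.ρ k * Real.cos (Y.β k)) ^ 2 = Y.h0 k ^ 2 := by
    rw [h3, ← h4]; linear_combination Y.ρ k ^ 2 * h5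
  have h7 := hg.h0_pos hk
  exact (pow_left_inj₀ (by positivity) h7.le two_ne_zero).1 h6

lemma norm_unit (k : ZMod n) : ‖Y.e k / Y.ℓ k‖ = 1 := by
  have := hg.ell_pos k
  rw [norm_div, Complex.norm_real, Real.norm_eq_abs, abs_of_pos this, ← Table.ℓ, div_self this.ne']

lemma norm_tan (k : ZMod n) (s : ℝ) : ‖Y.tan k s‖ = 1 := by
  rw [Table.tan, norm_mul, hg.norm_unit, one_mul, mul_comm, Complex.norm_exp_ofReal_mul_I]

omit hg in
lemma pos_sub_c {k : ZMod n} (hk : k ∈ Y.D) (s : ℝ) :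
    Y.pos k s - Y.c k = Y.ρ k * (I * Y.tan k s) := by
  rw [Y.pos_D hk, Table.tan, Y.κ_D hk]
  have : Y.β k - s / Y.ρ k = Y.β k - 1 / Y.ρ k * s := by ring
  rw [this]; ring

lemma norm_pos_sub_c {k : ZMod n} (hk : k ∈ Y.D) (s : ℝ) :
    ‖Y.pos k s - Y.c k‖ = Y.ρ k := by
  rw [pos_sub_c hk, norm_mul, norm_mul, hg.norm_tan, Complex.norm_I, Complex.norm_real,
    Real.norm_eq_abs, abs_of_pos (hg.rho_pos hk)]
  ring

lemma f_arc {k : ZMod n} (hk : k ∈ Y.D) (w : ℂ) :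
    Y.f k (Y.c k + Y.ρ k * (I * (Y.e k / Y.ℓ k)) * w) =
      Y.ℓ k * (Y.ρ k * w.re - Y.h0 k) := by
  have hℓ := hg.ell_pos k
  have hp : Y.p (k + 1) = Y.p k + Y.e k := by simp [Table.e]
  have h1 : Y.ℓ k ^ 2 = (Y.e k).re * (Y.e k).re + (Y.e k).im * (Y.e k).im := by
    rw [Table.ℓ, ← dt_self]; rfl
  have h2 : Y.c k + Y.ρ k * (I * (Y.e k / Y.ℓ k)) * w - Y.p k =
      ((1 / 2 : ℝ) : ℂ) * Y.e k + (((Y.ρ k / Y.ℓ k : ℝ) : ℂ) * (I * (Y.e k * w))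
        - ((Y.h0 k / Y.ℓ k : ℝ) : ℂ) * (I * Y.e k)) := by
    rw [Table.c, hp]
    change (_ - I * (Y.e k / Y.ℓ k) * (Y.h0 k : ℝ)) + _ - _ = _
    push_cast
    ring
  rw [Table.f, h2, cr_add_right, cr_sub_right, cr_smul_right, cr_smul_right, cr_smul_right,
    cr_self, cr_I_right, cr_I_right, dt_self, ← Table.ℓ]
  have h3 : dt (Y.e k) (Y.e k * w) = Y.ℓ k ^ 2 * w.re := by
    rw [h1]; simp only [dt, mul_re, mul_im]; ring
  rw [h3]
  field_simp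
  ring

lemma f_pos_self {k : ZMod n} (hk : k ∈ Y.D) (s : ℝ) :
    Y.f k (Y.pos k s) =
      Y.ℓ k * (Y.ρ k * (Real.cos (Y.β k - s / Y.ρ k) - Real.cos (Y.β k))) := by
  rw [Y.pos_D hk, hg.f_arc hk, mul_comm I (((Y.β k - s / Y.ρ k : ℝ) : ℂ)),
    Complex.exp_ofReal_mul_I_re, ← hg.cos_beta hk]
  ring

lemma angle_mem {k : ZMod n} (hk : k ∈ Y.D) {s : ℝ} (hs : s ∈ Ioo 0 (Y.len k)) :
    |Y.β k - s / Y.ρ k| < Y.β k := by
  rw [Y.len_D hk] at hs
  have hρ := hg.rho_pos hk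
  rw [abs_lt]
  have h1 : 0 < s / Y.ρ k := div_pos hs.1 hρ
  have h2 : s / Y.ρ k < 2 * Y.β k := by
    rw [div_lt_iff₀ hρ]; linarith [hs.2]
  constructor <;> linarith

lemma len_pos (k : ZMod n) : 0 < Y.len k := by
  by_cases hk : k ∈ Y.D
  · rw [Y.len_D hk]; have := hg.rho_pos hk; have := hg.beta_pos hk; positivity
  · rw [Y.len_N hk]; exact hg.ell_pos k

/-- Points of the open boundary component `i` in the thin triangle. -/
lemma side_frame {i : ZMod n} {s : ℝ} (hs : s ∈ Ioo 0 (Y.len i)) :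
    ∃ a h, InT Y.toTable η i (Y.pos i s) a h ∧ 0 < a ∧ a < 1 ∧
      (i ∈ Y.D → 0 < Y.f i (Y.pos i s)) ∧ (i ∉ Y.D → Y.f i (Y.pos i s) = 0) := by
  by_cases hi : i ∈ Y.D
  · have hf : 0 < Y.f i (Y.pos i s) := by
      rw [hg.f_pos_self hi]
      have h1 := hg.angle_mem hi hs
      have h2 : Real.cos (Y.β i) < Real.cos (Y.β i - s / Y.ρ i) := by
        rw [← Real.cos_abs (Y.β i - s / Y.ρ i)]
        apply Real.cos_lt_cos_of_nonneg_of_le_pi (abs_nonneg _) _ h1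
        linarith [hg.beta_lt hi, Real.pi_pos]
      have := hg.rho_pos hi
      have := hg.ell_pos i
      have := sub_pos.2 h2
      positivity
    have hT := hg.inT_of_mem_ball hi hf.le (hg.norm_pos_sub_c hi s).le
    have hℓ := hg.ell_pos i
    have hh : 0 < Y.f i (Y.pos i s) / Y.ℓ i ^ 2 := by positivity
    have hη := hg.hη
    refine ⟨_, _, hT, ?_, ?_, fun _ => hf, fun h => absurd hi h⟩
    · have := hT.ha
      by_contra hcon
      push Not at hcon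
      nlinarith
    · have := hT.hb
      by_contra hcon
      push Not at hcon
      nlinarith
  · have hℓ := hg.ell_pos i
    rw [Y.len_N hi] at hs
    have h1 : Y.pos i s = Y.p i + ((s / Y.ℓ i : ℝ) + ((0 : ℝ) : ℂ) * I) * Y.e i := by
      rw [Y.pos_N hi]; push_cast; ring
    have ha0 : 0 < s / Y.ℓ i := div_pos hs.1 hℓ
    have ha1 : s / Y.ℓ i < 1 := by rw [div_lt_one hℓ]; exact hs.2
    have hη := hg.hη
    refine ⟨s / Y.ℓ i, 0, ⟨ha0.le, ha1.le, le_rfl, by positivity, ?_, h1⟩, ha0, ha1,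
      fun h => absurd h hi, fun _ => ?_⟩
    · have := sub_pos.2 ha1; positivity
    · rw [h1, Y.f_self_frame]; ring


end SG

end Pool.Agent.Lib.MP_19d7db_an
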