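import Pool.Agent.Lib.MP_19d7db_an_S.Loc

/-!
# Semi-dispersive simple polygons: local analysis of the billiard map
-/

open Complex Set Filter Topology MeasureTheory

namespace Pool.Agent.Lib.MP_19d7db_an

variable {n : ℕ}

namespace SG

variable {Y : Dom n} {C η : ℝ} (hg : SG Y C η)

include hg

lemma unit_eq (i : ZMod n) : Y.e i / Y.ℓ i = exp (I * (Y.A i : ℝ)) := by
  have := Complex.norm_mul_exp_arg_mul_I (Y.e i / Y.ℓ i)
  rw [hg.norm_unit, ofReal_one, one_mul] at this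
  rw [Table.A, mul_comm]
  exact this.symm

lemma tan_eq (i : ZMod n) (s : ℝ) :
    Y.tan i s = exp (I * (Y.A i + Y.β i - Y.κ i * s : ℝ)) := by
  rw [Table.tan, hg.unit_eq, ← Complex.exp_add]
  congr 1; push_cast; ring

lemma dir_eq (i : ZMod n) (w : ℝ × ℝ) : Y.dir (i, w) = exp (I * (Y.angOut i w : ℝ)) := by
  rw [Table.dir, hg.tan_eq, ← Complex.exp_add, Table.angOut]
  congr 1; push_cast; ring

lemma dirIn_eq (i : ZMod n) (w : ℝ × ℝ) : Y.dirIn (i, w) = exp (I * (Y.angIn i w : ℝ)) := by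
  rw [Table.dirIn, hg.tan_eq, ← Complex.exp_add, Table.angIn]
  congr 1; push_cast; ring

lemma norm_dir (z : ZMod n × ℝ × ℝ) : ‖Y.dir z‖ = 1 := by
  obtain ⟨i, w⟩ := z
  rw [hg.dir_eq, mul_comm, Complex.norm_exp_ofReal_mul_I]

lemma norm_dirIn (z : ZMod n × ℝ × ℝ) : ‖Y.dirIn z‖ = 1 := by
  obtain ⟨i, w⟩ := z
  rw [hg.dirIn_eq, mul_comm, Complex.norm_exp_ofReal_mul_I]

lemma pos_strict (i : ZMod n) (s : ℝ) : HasStrictDerivAt (Y.pos i) (Y.tan i s) s := by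
  by_cases hi : i ∈ Y.D
  · have h1 : Y.pos i = fun s : ℝ =>
        Y.c i + Y.ρ i * (I * (Y.e i / Y.ℓ i)) * exp (I * ((Y.β i : ℂ) - (s : ℂ) / Y.ρ i)) := by
      funext s; rw [Y.pos_D hi]; push_cast; rfl
    rw [h1]
    have hρ := hg.rho_pos hi
    have hρ' : (Y.ρ i : ℂ) ≠ 0 := by exact_mod_cast hρ.ne'
    have h2 : HasStrictDerivAt (fun s : ℝ => (s : ℂ)) 1 s := strict_ofReal s
    have h3 : HasStrictDerivAt (fun s : ℝ => I * ((Y.β i : ℂ) - (s : ℂ) / Y.ρ i))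
        (I * (-(1 / (Y.ρ i : ℂ)))) s := by
      have := ((h2.div_const (Y.ρ i : ℂ)).const_sub (Y.β i : ℂ)).const_mul I
      exact this
    have h4 := (h3.cexp.const_mul ((Y.ρ i : ℂ) * (I * (Y.e i / Y.ℓ i)))).const_add (Y.c i)
    refine h4.congr_deriv ?_
    rw [Table.tan, Y.κ_D hi]
    have h5 : ((Y.β i - 1 / Y.ρ i * s : ℝ) : ℂ) = (Y.β i : ℂ) - (s : ℂ) / Y.ρ i := by
      push_cast; ring
    rw [h5]
    have hI : I * I = -1 := I_mul_I
    set E := exp (I * ((Y.β i : ℂ) - (s : ℂ) / Y.ρ i))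
    calc (Y.ρ i : ℂ) * (I * (Y.e i / Y.ℓ i)) * (E * (I * -(1 / (Y.ρ i : ℂ))))
        = -(I * I) * ((Y.ρ i : ℂ) * (1 / (Y.ρ i : ℂ))) * ((Y.e i / Y.ℓ i) * E) := by ring
      _ = Y.e i / Y.ℓ i * E := by rw [hI, mul_one_div_cancel hρ']; ring
  · have h1 : Y.pos i = fun s : ℝ => Y.p i + (s : ℂ) * (Y.e i / Y.ℓ i) := by
      funext s; rw [Y.pos_N hi]
    rw [h1]
    have h2 : HasStrictDerivAt (fun s : ℝ => (s : ℂ)) 1 s := strict_ofReal s
    have h3 := (h2.mul_const (Y.e i / Y.ℓ i)).const_add (Y.p i)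
    refine h3.congr_deriv ?_
    rw [Table.tan, Y.β_N hi, Y.κ_N hi]
    simp


lemma continuous_pos (i : ZMod n) : Continuous (Y.pos i) :=
  continuous_iff_continuousAt.2 fun s => (hg.pos_strict i s).hasDerivAt.continuousAt

omit hg in
lemma continuous_tan (i : ZMod n) : Continuous (Y.tan i) := by
  unfold Table.tan; fun_prop

omit hg in
lemma continuous_dir (i : ZMod n) : Continuous fun w : ℝ × ℝ => Y.dir (i, w) := by
  have := continuous_tan (Y := Y) i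
  exact (this.comp continuous_fst).mul (by fun_prop)

omit hg in
lemma continuous_dirIn (i : ZMod n) : Continuous fun w : ℝ × ℝ => Y.dirIn (i, w) := by
  have := continuous_tan (Y := Y) i
  exact (this.comp continuous_fst).mul (by fun_prop)

omit hg in
lemma cr_mul_left (a c : ℂ) : cr a (a * c) = ‖a‖ ^ 2 * c.im := by
  rw [← dt_self]; simp only [cr, dt, mul_re, mul_im]; ring

lemma cr_tan_dir (i : ZMod n) (w : ℝ × ℝ) :
    cr (Y.tan i w.1) (Y.dir (i, w)) = Real.sin w.2 := by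
  rw [Table.dir, cr_mul_left]
  change _ * (exp (I * (w.2 : ℂ))).im = _
  rw [hg.norm_tan, mul_comm I, Complex.exp_ofReal_mul_I_im]
  ring

lemma cr_tan_dirIn (i : ZMod n) (w : ℝ × ℝ) :
    cr (Y.tan i w.1) (Y.dirIn (i, w)) = -Real.sin w.2 := by
  have h2 : (-(I * (w.2 : ℂ))) = ((-w.2 : ℝ) : ℂ) * I := by push_cast; ring
  rw [Table.dirIn, cr_mul_left]
  change _ * (exp (-(I * (w.2 : ℂ)))).im = _
  rw [hg.norm_tan, h2, Complex.exp_ofReal_mul_I_im, Real.sin_neg]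
  ring

/-- Derivative of the line coordinates of the incoming line. -/
lemma phi_deriv (j : ZMod n) (w : ℝ × ℝ) :
    ∃ L : ℝ × ℝ →L[ℝ] ℝ × ℝ, HasStrictFDerivAt
      (fun u : ℝ × ℝ => (Y.angIn j u, cr (Y.dirIn (j, u)) (Y.pos j u.1 - Y.pos j w.1))) L w ∧
      ∀ v, L v = (-(Y.κ j * v.1) - v.2, Real.sin w.2 * v.1) := by
  have hfst : HasStrictFDerivAt (fun u : ℝ × ℝ => u.1) (ContinuousLinearMap.fst ℝ ℝ ℝ) w :=
    (ContinuousLinearMap.fst ℝ ℝ ℝ).hasStrictFDerivAt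
  have hsnd : HasStrictFDerivAt (fun u : ℝ × ℝ => u.2) (ContinuousLinearMap.snd ℝ ℝ ℝ) w :=
    (ContinuousLinearMap.snd ℝ ℝ ℝ).hasStrictFDerivAt
  have hang : HasStrictFDerivAt (fun u : ℝ × ℝ => Y.angIn j u)
      (-(Y.κ j • ContinuousLinearMap.fst ℝ ℝ ℝ) - ContinuousLinearMap.snd ℝ ℝ ℝ) w := by
    have := ((hfst.const_mul (Y.κ j)).const_sub (Y.A j + Y.β j)).sub hsnd
    exact this
  have hdir : HasStrictFDerivAt (fun u : ℝ × ℝ => Y.dirIn (j, u))
      (Y.dirIn (j, w) • (I • (Complex.ofRealCLM.comp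
        (-(Y.κ j • ContinuousLinearMap.fst ℝ ℝ ℝ) - ContinuousLinearMap.snd ℝ ℝ ℝ)))) w := by
    have h1 : (fun u : ℝ × ℝ => Y.dirIn (j, u)) =
        fun u : ℝ × ℝ => exp (I * (Complex.ofRealCLM (Y.angIn j u))) := by
      funext u; rw [hg.dirIn_eq]; rfl
    rw [h1, hg.dirIn_eq]
    have h2 := ((Complex.ofRealCLM.hasStrictFDerivAt.comp w hang).const_mul I).cexp
    exact h2
  have hpos : HasStrictFDerivAt (fun u : ℝ × ℝ => Y.pos j u.1 - Y.pos j w.1)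
      ((ContinuousLinearMap.fst ℝ ℝ ℝ).smulRight (Y.tan j w.1)) w := by
    have h1 := (hg.pos_strict j w.1).hasStrictFDerivAt.comp w hfst
    have h2 := h1.sub_const (Y.pos j w.1)
    refine h2.congr_fderiv ?_
    ext v <;> simp
  obtain ⟨L, hL, hL'⟩ := strict_cr hdir hpos
  refine ⟨_, hang.prodMk hL, ?_⟩
  intro v
  have h3 := hg.cr_tan_dirIn j w
  rw [cr_comm] at h3
  have h4 : cr (Y.dirIn (j, w)) (Y.tan j w.1) = Real.sin w.2 := by linarith
  apply Prod.ext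
  · simp
  · rw [ContinuousLinearMap.prod_apply]
    simp only [hL']
    rw [sub_self, ContinuousLinearMap.smulRight_apply]
    have h5 : cr (Y.dirIn (j, w)) ((ContinuousLinearMap.fst ℝ ℝ ℝ) v • Y.tan j w.1) =
        v.1 * Real.sin w.2 := by
      rw [← h4]; simp [cr]; ring
    rw [h5]
    simp [cr]; ring

/-- Derivative of the line coordinates of the outgoing line. -/
lemma psi_deriv (i : ZMod n) (w : ℝ × ℝ) (K t : ℝ) :
    ∃ L : ℝ × ℝ →L[ℝ] ℝ × ℝ, HasStrictFDerivAt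
      (fun u : ℝ × ℝ => (Y.angOut i u + K,
        cr (Y.dir (i, u)) (Y.pos i u.1 - (Y.pos i w.1 + t * Y.dir (i, w))))) L w ∧
      ∀ v, L v = (-(Y.κ i * v.1) + v.2, -(Real.sin w.2 * v.1) + t * (v.2 - Y.κ i * v.1)) := by
  have hfst : HasStrictFDerivAt (fun u : ℝ × ℝ => u.1) (ContinuousLinearMap.fst ℝ ℝ ℝ) w :=
    (ContinuousLinearMap.fst ℝ ℝ ℝ).hasStrictFDerivAt
  have hsnd : HasStrictFDerivAt (fun u : ℝ × ℝ => u.2) (ContinuousLinearMap.snd ℝ ℝ ℝ) w :=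
    (ContinuousLinearMap.snd ℝ ℝ ℝ).hasStrictFDerivAt
  have hang : HasStrictFDerivAt (fun u : ℝ × ℝ => Y.angOut i u)
      (-(Y.κ i • ContinuousLinearMap.fst ℝ ℝ ℝ) + ContinuousLinearMap.snd ℝ ℝ ℝ) w := by
    have := ((hfst.const_mul (Y.κ i)).const_sub (Y.A i + Y.β i)).add hsnd
    exact this
  have hdir : HasStrictFDerivAt (fun u : ℝ × ℝ => Y.dir (i, u))
      (Y.dir (i, w) • (I • (Complex.ofRealCLM.comp
        (-(Y.κ i • ContinuousLinearMap.fst ℝ ℝ ℝ) + ContinuousLinearMap.snd ℝ ℝ ℝ)))) w := by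
    have h1 : (fun u : ℝ × ℝ => Y.dir (i, u)) =
        fun u : ℝ × ℝ => exp (I * (Complex.ofRealCLM (Y.angOut i u))) := by
      funext u; rw [hg.dir_eq]; rfl
    rw [h1, hg.dir_eq]
    have h2 := ((Complex.ofRealCLM.hasStrictFDerivAt.comp w hang).const_mul I).cexp
    exact h2
  have hpos : HasStrictFDerivAt
      (fun u : ℝ × ℝ => Y.pos i u.1 - (Y.pos i w.1 + t * Y.dir (i, w)))
      ((ContinuousLinearMap.fst ℝ ℝ ℝ).smulRight (Y.tan i w.1)) w := by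
    have h1 := (hg.pos_strict i w.1).hasStrictFDerivAt.comp w hfst
    have h2 := h1.sub_const (Y.pos i w.1 + t * Y.dir (i, w))
    refine h2.congr_fderiv ?_
    ext v <;> simp
  obtain ⟨L, hL, hL'⟩ := strict_cr hdir hpos
  refine ⟨_, (hang.add_const K).prodMk hL, ?_⟩
  intro v
  have h3 := hg.cr_tan_dir i w
  rw [cr_comm] at h3
  have h4 : cr (Y.dir (i, w)) (Y.tan i w.1) = -Real.sin w.2 := by linarith
  apply Prod.ext
  · simp
  · rw [ContinuousLinearMap.prod_apply]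
    simp only [hL']
    rw [ContinuousLinearMap.smulRight_apply]
    have h5 : cr (Y.dir (i, w)) ((ContinuousLinearMap.fst ℝ ℝ ℝ) v • Y.tan i w.1) =
        v.1 * (-Real.sin w.2) := by
      rw [← h4]; simp [cr]; ring
    rw [h5]
    have h6 : dt (Y.dir (i, w)) (Y.dir (i, w)) = 1 := by rw [dt_self, hg.norm_dir]; norm_num
    simp only [dt] at h6
    simp [cr]
    linear_combination (t * (v.2 - Y.κ i * v.1)) * h6

end SG

end Pool.Agent.Lib.MP_19d7db_an
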