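import Pool.Agent.Lib.MP_19d7db_an_S.Null

/-!
# Semi-dispersive simple polygons: a criterion for hyperbolicity
-/

open Complex Set Filter Topology MeasureTheory

namespace Pool.Agent.Lib.MP_19d7db_an

variable {n : ℕ}

namespace SG

variable {Y : Dom n} {C η : ℝ} (hg : SG Y C η)

include hg

/-- The derivative relations hold for every derivative of the billiard map. -/
lemma rel_of_isDeriv [NeZero n] {z z' : ZMod n × ℝ × ℝ} {A : ℝ × ℝ →L[ℝ] ℝ × ℝ}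
    (h : Y.IsDeriv z z' A) :
    ∃ t, Rel (Real.sin z.2.2) (Real.sin z'.2.2) (Y.κ z.1) (Y.κ z'.1) t A := by
  obtain ⟨i, w⟩ := z
  obtain ⟨j, w'⟩ := z'
  obtain ⟨F, hF0, hFd, hF⟩ := h
  simp only at hF0 hFd hF ⊢
  have hh : Y.Hit (i, w) (j, w') := by
    have := hF.self_of_nhds
    rwa [hF0] at this
  obtain ⟨G, B, t, ht, hGw, hGd, hG, hB⟩ := hg.hit_local hh
  have hFG : F =ᶠ[𝓝 w] G := by
    filter_upwards [hF, hG] with u h1 h2
    exact hg.hit_unique h1 h2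
  have hAB : A = B := hFd.unique (hFG.hasFDerivAt_iff.2 hGd)
  refine ⟨t, hg.sin_pos_of_phase hh.1, hg.sin_pos_of_phase hh.2.1, hg.kappa_nonneg _,
    hg.kappa_nonneg _, ht, ?_, ?_⟩
  · intro v; rw [hAB]; exact (hB v).1
  · intro v; rw [hAB]; exact (hB v).2

lemma exists_isDeriv [NeZero n] {z z' : ZMod n × ℝ × ℝ} (h : Y.Hit z z') :
    ∃ A, Y.IsDeriv z z' A := by
  obtain ⟨i, w⟩ := z
  obtain ⟨j, w'⟩ := z'
  obtain ⟨G, B, t, ht, hGw, hGd, hG, hB⟩ := hg.hit_local h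
  exact ⟨B, G, hGw, hGd, hG⟩

/-- An orbit which does not stay on neutral sides has an iterate with strictly invariant cone. -/
lemma exists_strict [NeZero n] : ∀ (N : ℕ) (z : ZMod n × ℝ × ℝ), Y.Reach (N + 1) z →
    ¬ Y.NC N z → ∃ k z' A, Y.Iter k z z' A ∧
      ∀ v : ℝ × ℝ, v.1 * v.2 ≤ 0 → v ≠ 0 → (A v).1 * (A v).2 < 0 := by
  have one : ∀ z z' : ZMod n × ℝ × ℝ, z.1 ∈ Y.D → Y.Hit z z' → ∃ k z' A, Y.Iter k z z' A ∧
      ∀ v : ℝ × ℝ, v.1 * v.2 ≤ 0 → v ≠ 0 → (A v).1 * (A v).2 < 0 := by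
    intro z z' hz hh
    obtain ⟨A, hA⟩ := hg.exists_isDeriv hh
    obtain ⟨t, hR⟩ := hg.rel_of_isDeriv hA
    refine ⟨1, z', A, ⟨z', A, ContinuousLinearMap.id ℝ (ℝ × ℝ), hA, ⟨rfl, rfl⟩, ?_⟩, ?_⟩
    · rw [ContinuousLinearMap.id_comp]
    · intro v hv hv0
      exact hR.strict_of_kappa (Or.inl (hg.kappa_pos hz)) hv hv0
  intro N
  induction N with
  | zero =>
    intro z hr hn
    obtain ⟨z', hh, -⟩ := hr
    have hz : z.1 ∈ Y.D := by
      by_contra hcon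
      exact hn ⟨[], rfl, hcon⟩
    exact one z z' hz hh
  | succ N ih =>
    intro z hr hn
    obtain ⟨z', hh, hr'⟩ := hr
    by_cases hz : z.1 ∈ Y.D
    · exact one z z' hz hh
    have hn' : ¬ Y.NC N z' := by
      rintro ⟨L, hL, hp⟩
      exact hn ⟨z'.1 :: L, by simp [hL], hz, z'.2, hh, hp⟩
    obtain ⟨k, z'', A', hA', hs⟩ := ih z' hr' hn'
    obtain ⟨A, hA⟩ := hg.exists_isDeriv hh
    obtain ⟨t, hR⟩ := hg.rel_of_isDeriv hA
    refine ⟨k + 1, z'', A'.comp A, ⟨z', A, A', hA, hA', rfl⟩, ?_⟩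
    intro v hv hv0
    exact hs (A v) (hR.cone_map hv) (hR.map_ne hv hv0)

/-- Criterion: if almost no phase point of a neutral side has an orbit which only hits neutral
sides, then the table is hyperbolic. -/
theorem hyperbolic_of_ae [NeZero n]
    (hnull : ∀ i, volume {w : ℝ × ℝ | w ∈ Y.Phase i ∧ ∀ N, Y.NC N (i, w)} = 0) :
    Y.Hyperbolic := by
  refine ⟨fun _ => (1, 0), fun _ => (0, -1), fun _ => measurable_const, fun _ => measurable_const,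
    fun _ => by norm_num, ?_⟩
  intro i
  have h1 := ae_all_iff.2 fun k => hg.ae_reach k i
  have h2 : ∀ᵐ w : ℝ × ℝ, ¬ (w ∈ Y.Phase i ∧ ∀ N, Y.NC N (i, w)) := by
    rw [ae_iff]
    simpa only [not_not] using hnull i
  filter_upwards [h1, h2] with w h1 h2 hw
  have h3 : ∃ N, ¬ Y.NC N (i, w) := by
    by_contra hcon
    push Not at hcon
    exact h2 ⟨hw, hcon⟩
  obtain ⟨N, hN⟩ := h3
  refine ⟨?_, ?_, ?_⟩
  · obtain ⟨z', hh, -⟩ := h1 1 hw
    obtain ⟨A, hA⟩ := hg.exists_isDeriv hh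
    exact ⟨z', A, hA⟩
  · intro z' A hA v hv
    obtain ⟨t, hR⟩ := hg.rel_of_isDeriv hA
    rw [mem_cone_iff] at hv ⊢
    exact hR.cone_map hv
  · obtain ⟨k, z', A, hA, hs⟩ := hg.exists_strict N (i, w) (h1 (N + 1) hw) hN
    refine ⟨k, z', A, hA, fun v hv hv0 => ?_⟩
    rw [mem_cone_iff] at hv
    exact mem_interior_cone (hs v hv hv0)

end SG

end Pool.Agent.Lib.MP_19d7db_an
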