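import Pool.Agent.Lib.MP_19d7db_an_S.Exist

/-!
# Semi-dispersive simple polygons: null sets for the billiard map
-/

open Complex Set Filter Topology MeasureTheory

namespace Pool.Agent.Lib.MP_19d7db_an

variable {n : ℕ}

namespace Dom

/-- `Path L z`: the orbit of `z` starts on a neutral side and then hits the neutral sides of the
list `L`. -/
def Path (Y : Dom n) : List (ZMod n) → ZMod n × ℝ × ℝ → Prop
  | [], z => z.1 ∉ Y.D
  | j :: L, z => z.1 ∉ Y.D ∧ ∃ w', Y.Hit z (j, w') ∧ Path Y L (j, w')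

lemma Path.neutral {Y : Dom n} {L : List (ZMod n)} {z : ZMod n × ℝ × ℝ} (h : Y.Path L z) :
    z.1 ∉ Y.D := by
  cases L with
  | nil => exact h
  | cons j L => exact h.1

/-- The orbit of `z` makes at least `N` neutral hits. -/
def NC (Y : Dom n) (N : ℕ) (z : ZMod n × ℝ × ℝ) : Prop := ∃ L, L.length = N ∧ Y.Path L z

/-- The orbit of `z` makes at least `N` hits. -/
def Reach (Y : Dom n) : ℕ → ZMod n × ℝ × ℝ → Prop
  | 0, _ => True
  | k + 1, z => ∃ z', Y.Hit z z' ∧ Reach Y k z'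

end Dom

namespace SG

variable {Y : Dom n} {C η : ℝ} (hg : SG Y C η)

include hg

lemma isOpen_path [NeZero n] : ∀ (L : List (ZMod n)) (i : ZMod n),
    IsOpen {w : ℝ × ℝ | w ∈ Y.Phase i ∧ Y.Path L (i, w)} := by
  intro L
  induction L with
  | nil =>
    intro i
    by_cases hi : i ∈ Y.D
    · convert isOpen_empty
      ext w
      simp only [Set.mem_ofPred_eq, Set.mem_empty_iff_false, iff_false, not_and]
      intro _ h
      exact h hi
    · convert isOpen_phase (Y := Y) i using 1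
      ext w
      simp only [Set.mem_ofPred_eq, and_iff_left_iff_imp]
      intro _
      exact hi
  | cons j L ih =>
    intro i
    rw [isOpen_iff_mem_nhds]
    rintro w ⟨hw, hi, w1, hh, hp⟩
    obtain ⟨F, A, t, ht, hFw, hFd, hF, -⟩ := hg.hit_local hh
    have hw1 : w1 ∈ Y.Phase j := hh.2.1
    have h1 : Tendsto F (𝓝 w) (𝓝 w1) := by
      have := hFd.continuousAt.tendsto; rwa [hFw] at this
    have h2 : ∀ᶠ u in 𝓝 w, F u ∈ {w : ℝ × ℝ | w ∈ Y.Phase j ∧ Y.Path L (j, w)} :=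
      h1.eventually ((ih j).mem_nhds ⟨hw1, hp⟩)
    filter_upwards [hF, h2] with u h3 h4
    exact ⟨h3.1, hi, F u, h3, h4.2⟩

lemma meas_surv [NeZero n] (i : ZMod n) :
    MeasurableSet {w : ℝ × ℝ | w ∈ Y.Phase i ∧ ∀ N, Y.NC N (i, w)} := by
  have : {w : ℝ × ℝ | w ∈ Y.Phase i ∧ ∀ N, Y.NC N (i, w)} =
      ⋂ N : ℕ, ⋃ L : {L : List (ZMod n) // L.length = N},
        {w : ℝ × ℝ | w ∈ Y.Phase i ∧ Y.Path L.1 (i, w)} := by
    ext w
    simp only [Set.mem_ofPred_eq, Set.mem_iInter, Set.mem_iUnion, Dom.NC, Subtype.exists]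
    constructor
    · rintro ⟨h1, h2⟩ N
      obtain ⟨L, hL, hp⟩ := h2 N
      exact ⟨L, hL, h1, hp⟩
    · intro h
      obtain ⟨L, hL, h1, hp⟩ := h 0
      refine ⟨h1, fun N => ?_⟩
      obtain ⟨L, hL, h1, hp⟩ := h N
      exact ⟨L, hL, hp⟩
  rw [this]
  apply MeasurableSet.iInter
  intro N
  exact (isOpen_iUnion fun L : {L : List (ZMod n) // L.length = N} =>
    hg.isOpen_path L.1 i).measurableSet

/-- Preimages of null sets are null sets. -/
theorem null_preimage [NeZero n] (i j : ZMod n) {N : Set (ℝ × ℝ)} (hN : volume N = 0) :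
    volume {w : ℝ × ℝ | ∃ w' ∈ N, Y.Hit (i, w) (j, w')} = 0 := by
  classical
  set rev : ℝ × ℝ → ℝ × ℝ := fun u : ℝ × ℝ => (u.1, Real.pi - u.2) with hrev
  set Ψ : ℝ × ℝ → ℝ × ℝ := fun u =>
    if h : ∃ x, Y.Hit (j, u) (i, x) then h.choose else 0 with hΨ
  have hΨs : ∀ u x, Y.Hit (j, u) (i, x) → Ψ u = x := by
    intro u x hx
    have hex : ∃ x, Y.Hit (j, u) (i, x) := ⟨x, hx⟩
    simp only [hΨ, hex, dif_pos]
    exact hg.hit_unique hex.choose_spec hx
  set R : Set (ℝ × ℝ) := {u | ∃ x, Y.Hit (j, u) (i, x)} with hR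
  have hdiff : DifferentiableOn ℝ Ψ (rev '' N ∩ R) := by
    rintro u ⟨-, x, hx⟩
    obtain ⟨F, A, t, ht, hFw, hFd, hF, -⟩ := hg.hit_local hx
    have h1 : Ψ =ᶠ[𝓝 u] F := by
      filter_upwards [hF] with y hy
      exact hΨs y _ hy
    exact (h1.differentiableAt_iff.2 hFd.differentiableAt).differentiableWithinAt
  have h1 : volume (rev '' N ∩ R) = 0 := measure_mono_null Set.inter_subset_left (Good.null_rev hN)
  have h2 := addHaar_image_eq_zero_of_differentiableOn_of_addHaar_eq_zero volume hdiff h1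
  have h3 := Good.null_rev h2
  apply measure_mono_null _ h3
  rintro w ⟨w', hw', hh⟩
  have h4 := hg.hit_rev hh
  refine ⟨rev w, ⟨rev w', ⟨⟨w', hw', rfl⟩, rev w, h4⟩, hΨs _ _ h4⟩, ?_⟩
  simp [hrev]

theorem ae_reach [NeZero n] : ∀ (k : ℕ) (i : ZMod n),
    ∀ᵐ w : ℝ × ℝ, w ∈ Y.Phase i → Y.Reach k (i, w) := by
  intro k
  induction k with
  | zero => intro i; exact Eventually.of_forall fun w _ => trivial
  | succ k ih =>
    intro i
    have h1 := hg.ae_exists_hit i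
    have h2 : ∀ j, ∀ᵐ w : ℝ × ℝ, ¬ ∃ w' ∈ {w' | ¬ (w' ∈ Y.Phase j → Y.Reach k (j, w'))},
        Y.Hit (i, w) (j, w') := by
      intro j
      have h3 := hg.null_preimage i j (ae_iff.1 (ih j))
      rw [ae_iff]
      simpa only [not_not] using h3
    rw [← ae_all_iff] at h2
    filter_upwards [h1, h2] with w h1 h2 hw
    obtain ⟨j, w', hh⟩ := h1 hw
    refine ⟨(j, w'), hh, ?_⟩
    by_contra hcon
    apply h2 j
    exact ⟨w', fun h => hcon (h hh.2.1), hh⟩

end SG

end Pool.Agent.Lib.MP_19d7db_an
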