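import Pool.Agent.Lib.MP_19d7db_an_S.Main

/-!
# Semi-dispersive simple polygons: invariance of the measure and recurrence

A bounded function on the phase space which does not decrease along the neutral orbits is
constant along almost all of them, as the billiard map preserves the measure `sin θ ds dθ`.
-/

open Complex Set Filter Topology MeasureTheory
open scoped ENNReal

namespace Pool.Agent.Lib.MP_19d7db_an

variable {n : ℕ}

/-- The determinant of the derivative at a collision. -/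
lemma Rel.det {S S' κ κ' t : ℝ} {A : ℝ × ℝ →L[ℝ] ℝ × ℝ} (h : Rel S S' κ κ' t A) :
    A.det = S / S' := by
  have hS' := h.hS'
  have a1 := h.h1 (1, 0)
  have a2 := h.h2 (1, 0)
  have b1 := h.h1 (0, 1)
  have b2 := h.h2 (0, 1)
  simp only [mul_one, mul_zero, zero_sub, sub_zero, neg_zero, zero_add] at a1 a2 b1 b2
  have h1 : A.det = (A (1, 0)).1 * (A (0, 1)).2 - (A (0, 1)).1 * (A (1, 0)).2 := by
    rw [ContinuousLinearMap.det, ← LinearMap.det_toMatrix (Module.Basis.finTwoProd ℝ),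
      Matrix.det_fin_two]
    simp only [LinearMap.toMatrix_apply, Module.Basis.finTwoProd_zero,
      Module.Basis.finTwoProd_one, Module.Basis.coe_finTwoProd_repr,
      ContinuousLinearMap.coe_coe, Matrix.cons_val_zero, Matrix.cons_val_one]
  rw [h1, eq_div_iff hS'.ne']
  rw [a2, b2]
  linear_combination (-1 : ℝ) * a1 - κ * b1

namespace Dom

variable (Y : Dom n)

/-- The set of phase points of the component `i` which never leave the neutral sides. -/
def S (i : ZMod n) : Set (ℝ × ℝ) := {w | w ∈ Y.Phase i ∧ ∀ N, Y.NC N (i, w)}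

/-- The set of phase points of the component `i` with image on the component `j`. -/
def U (i j : ZMod n) : Set (ℝ × ℝ) := {w | ∃ w', Y.Hit (i, w) (j, w')}

open Classical in
/-- The billiard map from the component `i` to the component `j`. -/
noncomputable def Ψ (i j : ZMod n) (w : ℝ × ℝ) : ℝ × ℝ :=
  if h : ∃ w', Y.Hit (i, w) (j, w') then h.choose else w

end Dom

namespace SG

variable {Y : Dom n} {C η : ℝ} (hg : SG Y C η)

include hg

/-- Different open boundary components are disjoint. -/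
lemma pos_disjoint {i j : ZMod n} {s s' : ℝ} (hs : s ∈ Ioo 0 (Y.len i)) (hs' : s' ∈ Ioo 0 (Y.len j))
    (h : Y.pos i s = Y.pos j s') : i = j := by
  by_contra hij
  obtain ⟨a, h1, hT, h0, h1', -, -⟩ := hg.side_frame hs
  obtain ⟨b, h2, hT', -⟩ := hg.side_frame hs'
  rw [← h] at hT'
  rcases hg.inT_inter hT hT' hij with h3 | h3 <;> linarith

/-- Uniqueness of the image. -/
lemma hit_unique' {z z' z'' : ZMod n × ℝ × ℝ} (h : Y.Hit z z') (h2 : Y.Hit z z'') : z' = z'' := by
  obtain ⟨j, w'⟩ := z'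
  obtain ⟨k, w''⟩ := z''
  have hjk : j = k := by
    obtain ⟨hw, hw', t, ht, hpos, hdir, hin⟩ := h
    obtain ⟨-, hw'', t', ht', hpos', hdir', hin'⟩ := h2
    simp only at hw hw' hpos hdir hin hw'' hpos' hdir' hin'
    have htt : t = t' := by
      rcases lt_trichotomy t t' with h | h | h
      · exact absurd (hpos ▸ hin' t ⟨ht, h⟩) (hg.not_inside_pos hw'.1)
      · exact h
      · exact absurd (hpos' ▸ hin t' ⟨ht', h⟩) (hg.not_inside_pos hw''.1)
    subst htt
    exact hg.pos_disjoint hw'.1 hw''.1 (by rw [hpos, hpos'])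
  subst hjk
  obtain ⟨i, w⟩ := z
  rw [hg.hit_unique h h2]

/-- Uniqueness of the preimage. -/
lemma hit_inj {i k j : ZMod n} {w u w' : ℝ × ℝ} (h : Y.Hit (i, w) (j, w'))
    (h2 : Y.Hit (k, u) (j, w')) : i = k ∧ w = u := by
  have h3 := hg.hit_unique' (hg.hit_rev h) (hg.hit_rev h2)
  simp only [Prod.mk.injEq] at h3
  obtain ⟨h4, h5, h6⟩ := h3
  exact ⟨h4, Prod.ext h5 (by linarith)⟩

omit hg in
lemma Ψ_spec {i j : ZMod n} {w : ℝ × ℝ} (hw : w ∈ Y.U i j) : Y.Hit (i, w) (j, Y.Ψ i j w) := by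
  have h : ∃ w', Y.Hit (i, w) (j, w') := hw
  rw [Dom.Ψ, dif_pos h]
  exact h.choose_spec

lemma Ψ_eq {i j : ZMod n} {w w' : ℝ × ℝ} (h : Y.Hit (i, w) (j, w')) : Y.Ψ i j w = w' :=
  hg.hit_unique (Ψ_spec ⟨w', h⟩) h

lemma isOpen_U [NeZero n] (i j : ZMod n) : IsOpen (Y.U i j) := by
  rw [isOpen_iff_mem_nhds]
  rintro w ⟨w', h⟩
  obtain ⟨F, A, t, ht, hFw, hFd, hF, -⟩ := hg.hit_local h
  filter_upwards [hF] with u hu
  exact ⟨F u, hu⟩

/-- The derivative of the billiard map. -/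
lemma exists_deriv [NeZero n] {i j : ZMod n} {w : ℝ × ℝ} (hw : w ∈ Y.U i j) :
    ∃ A : ℝ × ℝ →L[ℝ] ℝ × ℝ, HasFDerivAt (Y.Ψ i j) A w ∧
      A.det = Real.sin w.2 / Real.sin (Y.Ψ i j w).2 := by
  have h := Ψ_spec hw
  obtain ⟨F, A, t, ht, hFw, hFd, hF, hA⟩ := hg.hit_local h
  have h1 : Y.Ψ i j =ᶠ[𝓝 w] F := by
    filter_upwards [hF] with y hy
    exact hg.Ψ_eq hy
  have hR : Rel (Real.sin w.2) (Real.sin (Y.Ψ i j w).2) (Y.κ i) (Y.κ j) t A :=
    ⟨hg.sin_pos_of_phase h.1, hg.sin_pos_of_phase h.2.1, hg.kappa_nonneg _, hg.kappa_nonneg _, ht,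
      fun v => (hA v).1, fun v => (hA v).2⟩
  exact ⟨A, h1.hasFDerivAt_iff.2 hFd, hR.det⟩

/-- The billiard map preserves the measure `sin θ ds dθ`. -/
lemma lintegral_image [NeZero n] (i j : ZMod n) {E : Set (ℝ × ℝ)} (hE : MeasurableSet E)
    (hEU : E ⊆ Y.U i j) (G : ℝ × ℝ → ℝ≥0∞) :
    ∫⁻ w in Y.Ψ i j '' E, ENNReal.ofReal (Real.sin w.2) * G w =
      ∫⁻ w in E, ENNReal.ofReal (Real.sin w.2) * G (Y.Ψ i j w) := by
  choose! A hA hdet using fun w (hw : w ∈ Y.U i j) => hg.exists_deriv hw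
  have hinj : InjOn (Y.Ψ i j) E := by
    intro u hu v hv huv
    have h1 := Ψ_spec (hEU hu)
    have h2 := Ψ_spec (hEU hv)
    rw [huv] at h1
    exact (hg.hit_inj h1 h2).2
  rw [lintegral_image_eq_lintegral_abs_det_fderiv_mul volume hE
    (fun w hw => (hA w (hEU hw)).hasFDerivWithinAt) hinj]
  apply setLIntegral_congr_fun hE
  intro w hw
  have h := Ψ_spec (hEU hw)
  have s1 := hg.sin_pos_of_phase h.1
  have s2 := hg.sin_pos_of_phase h.2.1
  simp only at s1 s2 ⊢
  rw [hdet w (hEU hw), abs_of_pos (div_pos s1 s2), ← mul_assoc,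
    ← ENNReal.ofReal_mul (div_pos s1 s2).le, div_mul_cancel₀ _ s2.ne']

lemma meas_image [NeZero n] (i j : ZMod n) {E : Set (ℝ × ℝ)} (hE : MeasurableSet E)
    (hEU : E ⊆ Y.U i j) : MeasurableSet (Y.Ψ i j '' E) := by
  choose! A hA hdet using fun w (hw : w ∈ Y.U i j) => hg.exists_deriv hw
  have hinj : InjOn (Y.Ψ i j) E := by
    intro u hu v hv huv
    have h1 := Ψ_spec (hEU hu)
    have h2 := Ψ_spec (hEU hv)
    rw [huv] at h1
    exact (hg.hit_inj h1 h2).2
  exact measurable_image_of_fderivWithin hE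
    (fun w hw => (hA w (hEU hw)).hasFDerivWithinAt) hinj

omit hg in
lemma S_sub (i : ZMod n) : Y.S i ⊆ ⋃ j, Y.S i ∩ Y.U i j := by
  intro w hw
  obtain ⟨L, hL, hp⟩ := hw.2 1
  match L, hL, hp with
  | [j], _, hp =>
    obtain ⟨hi, w', hh, -⟩ := hp
    exact Set.mem_iUnion.2 ⟨j, hw, w', hh⟩

omit hg in
lemma S_neutral {i : ZMod n} {w : ℝ × ℝ} (hw : w ∈ Y.S i) : i ∉ Y.D := by
  obtain ⟨L, hL, hp⟩ := hw.2 0
  exact hp.neutral

lemma Ψ_mem {i j : ZMod n} {w : ℝ × ℝ} (hw : w ∈ Y.S i) (hw' : w ∈ Y.U i j) :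
    Y.Ψ i j w ∈ Y.S j := by
  have h := Ψ_spec hw'
  refine ⟨h.2.1, fun N => ?_⟩
  obtain ⟨L, hL, hp⟩ := hw.2 (N + 1)
  match L, hL, hp with
  | k :: L, hL, hp =>
    obtain ⟨hi, w', hh, hp'⟩ := hp
    have h1 := hg.hit_unique' h hh
    refine ⟨L, by simpa using hL, ?_⟩
    rw [h1]
    exact hp'

/-- Recurrence: a bounded function which does not decrease along the neutral orbits is constant
along almost all of them. -/
theorem recur [NeZero n] {G : ZMod n → ℝ × ℝ → ℝ} {K : ℝ} (hGm : ∀ i, Measurable (G i))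
    (hK : ∀ i, i ∉ Y.D → ∀ w ∈ Y.Phase i, |G i w| ≤ K)
    (hle : ∀ i j, ∀ᵐ w : ℝ × ℝ, w ∈ Y.S i → w ∈ Y.U i j → G i w ≤ G j (Y.Ψ i j w)) :
    ∀ i j, ∀ᵐ w : ℝ × ℝ, w ∈ Y.S i → w ∈ Y.U i j → G i w = G j (Y.Ψ i j w) := by
  have hSm : ∀ i, MeasurableSet (Y.S i) := fun i => hg.meas_surv i
  have hUm : ∀ i j, MeasurableSet (Y.U i j) := fun i j => (hg.isOpen_U i j).measurableSet
  have hEm : ∀ i j, MeasurableSet (Y.S i ∩ Y.U i j) := fun i j => (hSm i).inter (hUm i j)
  -- integrands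
  set g : ZMod n → ℝ × ℝ → ℝ≥0∞ := fun i w =>
    ENNReal.ofReal (Real.sin w.2) * ENNReal.ofReal (K + G i w) with hgd
  set a : ZMod n → ZMod n → ℝ≥0∞ := fun i j => ∫⁻ w in Y.S i ∩ Y.U i j, g i w with ha
  set h : ZMod n → ZMod n → ℝ≥0∞ := fun i j => ∫⁻ w in Y.S i ∩ Y.U i j,
    ENNReal.ofReal (Real.sin w.2) * ENNReal.ofReal (G j (Y.Ψ i j w) - G i w) with hh
  set b : ZMod n → ZMod n → ℝ≥0∞ := fun i j => ∫⁻ w in Y.S i ∩ Y.U i j,
    ENNReal.ofReal (Real.sin w.2) * ENNReal.ofReal (K + G j (Y.Ψ i j w)) with hb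
  have hgm : ∀ i, Measurable (g i) := by
    intro i
    exact Measurable.mul (Real.continuous_sin.comp continuous_snd).measurable.ennreal_ofReal
      (measurable_const.add (hGm i)).ennreal_ofReal
  have hab : ∀ i j, b i j = a i j + h i j := by
    intro i j
    rw [ha, hh, hb]
    simp only
    rw [← lintegral_add_left (hgm i)]
    apply setLIntegral_congr_fun_ae (hEm i j)
    filter_upwards [hle i j] with w h1 h2
    have h3 := h1 h2.1 h2.2
    have hi := S_neutral h2.1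
    have h4 := (abs_le.1 (hK i hi w h2.1.1)).1
    rw [hgd]
    simp only
    rw [← mul_add, ← ENNReal.ofReal_add (by linarith) (by linarith)]
    congr 2
    ring
  have hfin : ∀ i j, a i j ≠ ∞ := by
    intro i j
    have h1 : a i j ≤ ∫⁻ w in Y.S i ∩ Y.U i j, ENNReal.ofReal (2 * K) := by
      apply setLIntegral_mono' (hEm i j)
      intro w hw
      have hi := S_neutral hw.1
      have h4 := (abs_le.1 (hK i hi w hw.1.1)).2
      rw [hgd]
      simp only
      calc _ ≤ 1 * ENNReal.ofReal (2 * K) := by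
            apply mul_le_mul' _ (ENNReal.ofReal_le_ofReal (by linarith))
            rw [ENNReal.ofReal_le_one]
            exact Real.sin_le_one _
        _ = _ := one_mul _
    refine ne_top_of_le_ne_top ?_ h1
    rw [setLIntegral_const]
    apply ENNReal.mul_ne_top ENNReal.ofReal_ne_top
    have h2 : volume (Y.S i ∩ Y.U i j) ≤ volume (Y.Phase i) :=
      measure_mono fun w hw => hw.1.1
    refine ne_top_of_le_ne_top ?_ h2
    rw [Table.Phase, Measure.volume_eq_prod, Measure.prod_prod, Real.volume_Ioo, Real.volume_Ioo]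
    exact ENNReal.mul_ne_top ENNReal.ofReal_ne_top ENNReal.ofReal_ne_top
  -- the images
  have him : ∀ j, ∑ i, b i j ≤ ∫⁻ w in Y.S j, g j w := by
    intro j
    have h1 : ∀ i, b i j = ∫⁻ w in Y.Ψ i j '' (Y.S i ∩ Y.U i j), g j w := by
      intro i
      rw [hb, hgd]
      simp only
      rw [hg.lintegral_image i j (hEm i j) Set.inter_subset_right
        (fun w => ENNReal.ofReal (K + G j w))]
    rw [Finset.sum_congr rfl fun i _ => h1 i]
    rw [← lintegral_biUnion_finset (s := Finset.univ)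
      (t := fun i => Y.Ψ i j '' (Y.S i ∩ Y.U i j))]
    · apply lintegral_mono_set
      intro w hw
      simp only [Finset.mem_univ, Set.iUnion_true, Set.mem_iUnion] at hw
      obtain ⟨i, u, hu, rfl⟩ := hw
      exact hg.Ψ_mem hu.1 hu.2
    · intro i _ k _ hik
      rw [Function.onFun, Set.disjoint_left]
      rintro w ⟨u, hu, rfl⟩ ⟨v, hv, hvw⟩
      have h2 := Ψ_spec hu.2
      have h3 := Ψ_spec hv.2
      rw [hvw] at h3
      exact hik (hg.hit_inj h2 h3).1
    · intro i _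
      exact hg.meas_image i j (hEm i j) Set.inter_subset_right
  have hsub : ∀ i, ∫⁻ w in Y.S i, g i w ≤ ∑ j, a i j := by
    intro i
    calc _ ≤ ∫⁻ w in ⋃ j, Y.S i ∩ Y.U i j, g i w := lintegral_mono_set (S_sub i)
      _ ≤ ∑' j, ∫⁻ w in Y.S i ∩ Y.U i j, g i w := lintegral_iUnion_le _ _
      _ = _ := tsum_fintype _
  have htot : ∑ i, ∑ j, a i j + ∑ i, ∑ j, h i j ≤ ∑ i, ∑ j, a i j := by
    calc ∑ i, ∑ j, a i j + ∑ i, ∑ j, h i j = ∑ i, ∑ j, b i j := by
          rw [← Finset.sum_add_distrib]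
          apply Finset.sum_congr rfl
          intro i _
          rw [← Finset.sum_add_distrib]
          exact Finset.sum_congr rfl fun j _ => (hab i j).symm
      _ = ∑ j, ∑ i, b i j := Finset.sum_comm
      _ ≤ ∑ j, ∫⁻ w in Y.S j, g j w := Finset.sum_le_sum fun j _ => him j
      _ ≤ ∑ i, ∑ j, a i j := Finset.sum_le_sum fun i _ => hsub i
  have hafin : ∑ i, ∑ j, a i j ≠ ∞ := by
    rw [ENNReal.sum_ne_top]
    intro i _
    rw [ENNReal.sum_ne_top]
    intro j _
    exact hfin i j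
  have hzero : ∑ i, ∑ j, h i j = 0 := by
    by_contra hcon
    have := ENNReal.lt_add_right hafin hcon
    exact absurd htot (not_le.2 this)
  intro i j
  have hij : h i j = 0 := by
    rw [Finset.sum_eq_zero_iff] at hzero
    have := hzero i (Finset.mem_univ i)
    rw [Finset.sum_eq_zero_iff] at this
    exact this j (Finset.mem_univ j)
  have hΨc : ContinuousOn (Y.Ψ i j) (Y.S i ∩ Y.U i j) := by
    intro w hw
    obtain ⟨A, hA, -⟩ := hg.exists_deriv hw.2
    exact hA.continuousAt.continuousWithinAt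
  have hΨm : AEMeasurable (Y.Ψ i j) (volume.restrict (Y.S i ∩ Y.U i j)) :=
    hΨc.aemeasurable (hEm i j)
  have hmeas : AEMeasurable (fun w : ℝ × ℝ => ENNReal.ofReal (Real.sin w.2) *
      ENNReal.ofReal (G j (Y.Ψ i j w) - G i w)) (volume.restrict (Y.S i ∩ Y.U i j)) := by
    exact AEMeasurable.mul
      (Real.continuous_sin.comp continuous_snd).measurable.ennreal_ofReal.aemeasurable
      (((hGm j).comp_aemeasurable hΨm).sub (hGm i).aemeasurable).ennreal_ofReal
  rw [hh] at hij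
  simp only at hij
  rw [lintegral_eq_zero_iff' hmeas] at hij
  rw [Filter.EventuallyEq, ae_restrict_iff' (hEm i j)] at hij
  filter_upwards [hij, hle i j] with w h1 h2 h3 h4
  have h5 := h1 ⟨h3, h4⟩
  have h6 := h2 h3 h4
  have s1 := hg.sin_pos_of_phase h3.1
  simp only [Pi.zero_apply, mul_eq_zero, ENNReal.ofReal_eq_zero] at h5
  rcases h5 with h5 | h5 <;> linarith

end SG

end Pool.Agent.Lib.MP_19d7db_an
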